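import Pool.Agent.Sph.Ent

/-! The upper bound. Text, proof of (1). -/

set_option autoImplicit false

namespace Pool.Agent.Sph

open MeasureTheory ComplexConjugate

variable {n : ℕ}

/-- the kernel -/
noncomputable def KN (N : ℕ) (c : ℂ) : ℂ := 1 + 2 * ∑ k ∈ Finset.Icc 1 N, c ^ k

-- BEGIN u1
private lemma u1_mul (N : ℕ) (c : ℂ) : KN N c * (1 - c) = 1 + c - 2 * c ^ (N + 1) := by
  unfold KN
  induction N with
  | zero => simp; ring
  | succ N ih =>
    rw [Finset.sum_Icc_succ_top (by omega)]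
    have h : (1 + 2 * (∑ k ∈ Finset.Icc 1 N, c ^ k + c ^ (N + 1))) * (1 - c) =
        (1 + 2 * ∑ k ∈ Finset.Icc 1 N, c ^ k) * (1 - c) + 2 * c ^ (N + 1) * (1 - c) := by ring
    rw [h, ih]
    ring

private lemma u1_le (N : ℕ) (c : ℂ) (hc : ‖c‖ = 1) : ‖KN N c‖ ≤ 2 * N + 1 := by
  unfold KN
  have h1 : ‖∑ k ∈ Finset.Icc 1 N, c ^ k‖ ≤ N := by
    refine (norm_sum_le _ _).trans ?_
    simp [hc]
  calc ‖1 + 2 * ∑ k ∈ Finset.Icc 1 N, c ^ k‖ ≤ ‖(1 : ℂ)‖ + ‖2 * ∑ k ∈ Finset.Icc 1 N, c ^ k‖ :=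
        norm_add_le _ _
    _ = 1 + 2 * ‖∑ k ∈ Finset.Icc 1 N, c ^ k‖ := by simp
    _ ≤ 2 * N + 1 := by linarith

private lemma u1_four (N : ℕ) (c : ℂ) (hc : ‖c‖ = 1) : ‖KN N c‖ * ‖1 - c‖ ≤ 4 := by
  rw [← norm_mul, u1_mul]
  calc ‖1 + c - 2 * c ^ (N + 1)‖ ≤ ‖1 + c‖ + ‖2 * c ^ (N + 1)‖ := norm_sub_le _ _
    _ ≤ (‖(1 : ℂ)‖ + ‖c‖) + ‖2 * c ^ (N + 1)‖ := by
        have := norm_add_le (1 : ℂ) c
        linarith
    _ = 4 := by simp [hc]; norm_num

private lemma u1_conj (c : ℂ) : ‖1 - conj c‖ = ‖c - 1‖ := by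
  rw [← Complex.norm_conj (1 - conj c)]
  simp only [map_sub, map_one, Complex.conj_conj]
  exact norm_sub_rev _ _

private lemma u1_sin (t : ℝ) (h0 : 0 ≤ t) (h1 : t ≤ Real.pi) :
    t / Real.pi ≤ Real.sin (t / 2) := by
  have h := Real.mul_le_sin (x := t / 2) (by linarith) (by linarith)
  have e : 2 / Real.pi * (t / 2) = t / Real.pi := by ring
  rw [e] at h
  exact h

private lemma u1_bd (N : ℕ) (hN : 1 ≤ N) (t : ℝ) (h0 : 0 ≤ t) (h2 : t ≤ 2 * Real.pi) :
    ‖KN N (conj (circleMap 0 1 t))‖ ≤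
      4 * Real.pi * (t + (N : ℝ)⁻¹)⁻¹ + 4 * Real.pi * (2 * Real.pi + (N : ℝ)⁻¹ - t)⁻¹ := by
  have hpi : 0 < Real.pi := Real.pi_pos
  have hpi3 : 3 < Real.pi := Real.pi_gt_three
  have hN' : (1 : ℝ) ≤ N := by exact_mod_cast hN
  have hi : 0 < (N : ℝ)⁻¹ := by positivity
  set c : ℂ := circleMap 0 1 t with hc
  have hcn : ‖conj c‖ = 1 := by rw [Complex.norm_conj, hc]; simp
  set G : ℝ := ‖KN N (conj c)‖ with hG
  have hG0 : 0 ≤ G := norm_nonneg _
  have hA : G ≤ 2 * N + 1 := u1_le N _ hcn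
  have hA' : G * (N : ℝ)⁻¹ ≤ 3 := by
    have : G ≤ 3 * N := by linarith
    calc G * (N : ℝ)⁻¹ ≤ 3 * N * (N : ℝ)⁻¹ := by gcongr
      _ = 3 := by field_simp
  have hB : G * ‖1 - conj c‖ ≤ 4 := u1_four N _ hcn
  rw [u1_conj] at hB
  have hs : ‖c - 1‖ = 2 * |Real.sin (t / 2)| := by
    have h := Complex.norm_exp_I_mul_ofReal_sub_one t
    have e : c = Complex.exp (Complex.I * t) := by
      rw [hc, circleMap]
      simp [mul_comm]
    rw [e, h]
    simp
  rw [hs] at hB
  -- the two terms are nonnegative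
  have p1 : 0 ≤ 4 * Real.pi * (t + (N : ℝ)⁻¹)⁻¹ := by positivity
  have p2 : 0 ≤ 4 * Real.pi * (2 * Real.pi + (N : ℝ)⁻¹ - t)⁻¹ := by
    have : 0 < 2 * Real.pi + (N : ℝ)⁻¹ - t := by linarith
    positivity
  have key : ∀ u : ℝ, 0 ≤ u → u / Real.pi ≤ |Real.sin (t / 2)| →
      G ≤ 4 * Real.pi * (u + (N : ℝ)⁻¹)⁻¹ := by
    intro u hu hus
    have h1 : G * (2 * (u / Real.pi)) ≤ 4 := by
      refine le_trans ?_ hB
      gcongr
    have h2 : G * u ≤ 2 * Real.pi := by
      have e : G * (2 * (u / Real.pi)) = G * u * (2 / Real.pi) := by ring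
      rw [e] at h1
      have : G * u * (2 / Real.pi) * (Real.pi / 2) ≤ 4 * (Real.pi / 2) := by gcongr
      have e2 : G * u * (2 / Real.pi) * (Real.pi / 2) = G * u := by field_simp
      rw [e2] at this
      linarith
    rw [← div_eq_mul_inv, le_div_iff₀ (by positivity)]
    nlinarith
  rcases le_total t Real.pi with h | h
  · have := key t h0 ((u1_sin t h0 h).trans (le_abs_self _))
    linarith
  · have h3 : Real.sin (t / 2) = Real.sin ((2 * Real.pi - t) / 2) := by
      rw [← Real.sin_pi_sub]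
      congr 1
      ring
    have := key (2 * Real.pi - t) (by linarith) (by
      rw [h3]
      exact (u1_sin _ (by linarith) (by linarith)).trans (le_abs_self _))
    have e : 2 * Real.pi - t + (N : ℝ)⁻¹ = 2 * Real.pi + (N : ℝ)⁻¹ - t := by ring
    rw [e] at this
    linarith

/-- (u1, size 3) PROOF. `‖KN N c‖ ≤ 2 * N + 1`, and `KN N c * (1 - c) = 1 + c - 2 * c ^ (N + 1)`, so `‖KN N c‖ ≤ 4 / ‖1 - c‖`, `‖1 - exp (i t)‖ = 2 * |sin (t / 2)| ≥ 2 * |t| / π` for `|t| ≤ π`. Split the
integral over `[-π, π]` at `|t| = 1 / N`: at most `2 * (2 * N + 1) / N + 2 * ∫ t in 1 / N..π, 2 * π / t = C + 4 * π * log (π * N)`; `log (N + 1) ≥ log 2`. -/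
theorem KN_norm : ∃ C : ℝ, 0 < C ∧ ∀ N : ℕ, 1 ≤ N →
    Real.circleAverage (fun c : ℂ => ‖KN N (conj c)‖) 0 1 ≤ C * Real.log (N + 1) := by
  refine ⟨12, by norm_num, ?_⟩
  intro N hN
  have hpi : 0 < Real.pi := Real.pi_pos
  have hN' : (1 : ℝ) ≤ N := by exact_mod_cast hN
  have hi : 0 < (N : ℝ)⁻¹ := by positivity
  have hcont : Continuous fun t : ℝ => ‖KN N (conj (circleMap 0 1 t))‖ := by
    unfold KN
    have h1 : Continuous fun t : ℝ => (circleMap 0 1 t : ℂ) := continuous_circleMap 0 1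
    have h2 : Continuous fun t : ℝ => conj (circleMap 0 1 t : ℂ) := Complex.continuous_conj.comp h1
    fun_prop
  have hl : Real.log ((2 * Real.pi + (N : ℝ)⁻¹) / (N : ℝ)⁻¹) ≤ 3 * Real.log (N + 1) := by
    have e : (2 * Real.pi + (N : ℝ)⁻¹) / (N : ℝ)⁻¹ = 2 * Real.pi * N + 1 := by
      field_simp
    rw [e]
    have h7 : 2 * Real.pi * N + 1 ≤ ((N : ℝ) + 1) ^ 3 := by
      have h5 : Real.pi ≤ 7 / 2 := by
        have := Real.pi_lt_d2
        linarith
      have h6 : 2 * Real.pi * N ≤ 7 * N := by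
        have : 2 * Real.pi ≤ 7 := by linarith
        gcongr
      have h8 : 0 ≤ (N : ℝ) * (N - 1) * (N + 4) := by
        have : 0 ≤ (N : ℝ) - 1 := by linarith
        positivity
      linear_combination h6 + h8
    calc Real.log (2 * Real.pi * N + 1) ≤ Real.log (((N : ℝ) + 1) ^ 3) :=
          Real.log_le_log (by positivity) h7
      _ = 3 * Real.log (N + 1) := by rw [Real.log_pow]; norm_num
  have i1 : IntervalIntegrable (fun t : ℝ => (t + (N : ℝ)⁻¹)⁻¹) volume 0 (2 * Real.pi) := by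
    refine ContinuousOn.intervalIntegrable ?_
    refine ContinuousOn.inv₀ (by fun_prop) ?_
    intro t ht
    rw [Set.uIcc_of_le (by positivity)] at ht
    have := ht.1
    positivity
  have i2 : IntervalIntegrable (fun t : ℝ => (2 * Real.pi + (N : ℝ)⁻¹ - t)⁻¹) volume 0
      (2 * Real.pi) := by
    refine ContinuousOn.intervalIntegrable ?_
    refine ContinuousOn.inv₀ (by fun_prop) ?_
    intro t ht
    rw [Set.uIcc_of_le (by positivity)] at ht
    have := ht.2
    have : 0 < 2 * Real.pi + (N : ℝ)⁻¹ - t := by linarith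
    exact this.ne'
  have e1 : ∫ t in (0 : ℝ)..(2 * Real.pi), (t + (N : ℝ)⁻¹)⁻¹ =
      Real.log ((2 * Real.pi + (N : ℝ)⁻¹) / (N : ℝ)⁻¹) := by
    rw [intervalIntegral.integral_comp_add_right (fun x : ℝ => x⁻¹) ((N : ℝ)⁻¹), zero_add]
    exact integral_inv_of_pos hi (by positivity)
  have e2 : ∫ t in (0 : ℝ)..(2 * Real.pi), (2 * Real.pi + (N : ℝ)⁻¹ - t)⁻¹ =
      Real.log ((2 * Real.pi + (N : ℝ)⁻¹) / (N : ℝ)⁻¹) := by
    rw [intervalIntegral.integral_comp_sub_left (fun x : ℝ => x⁻¹) (2 * Real.pi + (N : ℝ)⁻¹)]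
    have : 2 * Real.pi + (N : ℝ)⁻¹ - 2 * Real.pi = (N : ℝ)⁻¹ := by ring
    rw [this, sub_zero]
    exact integral_inv_of_pos hi (by positivity)
  have hI : ∫ t in (0 : ℝ)..(2 * Real.pi), ‖KN N (conj (circleMap 0 1 t))‖ ≤
      24 * Real.pi * Real.log (N + 1) := by
    calc ∫ t in (0 : ℝ)..(2 * Real.pi), ‖KN N (conj (circleMap 0 1 t))‖
        ≤ ∫ t in (0 : ℝ)..(2 * Real.pi), (4 * Real.pi * (t + (N : ℝ)⁻¹)⁻¹ +
            4 * Real.pi * (2 * Real.pi + (N : ℝ)⁻¹ - t)⁻¹) := by
          refine intervalIntegral.integral_mono_on (by positivity)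
            (hcont.intervalIntegrable _ _) ((i1.const_mul _).add (i2.const_mul _)) ?_
          intro t ht
          exact u1_bd N hN t ht.1 ht.2
      _ = 4 * Real.pi * Real.log ((2 * Real.pi + (N : ℝ)⁻¹) / (N : ℝ)⁻¹) +
            4 * Real.pi * Real.log ((2 * Real.pi + (N : ℝ)⁻¹) / (N : ℝ)⁻¹) := by
          rw [intervalIntegral.integral_add (i1.const_mul _) (i2.const_mul _),
            intervalIntegral.integral_const_mul, intervalIntegral.integral_const_mul, e1, e2]
      _ ≤ 4 * Real.pi * (3 * Real.log (N + 1)) + 4 * Real.pi * (3 * Real.log (N + 1)) := by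
          gcongr
      _ = 24 * Real.pi * Real.log (N + 1) := by ring
  unfold Real.circleAverage
  rw [smul_eq_mul]
  calc (2 * Real.pi)⁻¹ * ∫ t in (0 : ℝ)..(2 * Real.pi), ‖KN N (conj (circleMap 0 1 t))‖
      ≤ (2 * Real.pi)⁻¹ * (24 * Real.pi * Real.log (N + 1)) := by gcongr
    _ = 12 * Real.log (N + 1) := by field_simp; ring
-- END u1

-- BEGIN u2
private lemma u2_avg (k j : ℕ) :
    Real.circleAverage (fun c : ℂ => c ^ k * (conj c) ^ j) 0 1 = if k = j then 1 else 0 := by
  have hpi : (2 * Real.pi : ℝ) ≠ 0 := by positivity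
  have hf : ∀ θ : ℝ, (circleMap 0 1 θ) ^ k * (conj (circleMap 0 1 θ)) ^ j =
      Complex.exp ((((k : ℤ) - (j : ℤ) : ℤ) : ℂ) * Complex.I * θ) := by
    intro θ
    have h1 : circleMap 0 1 θ = Complex.exp (θ * Complex.I) := by simp [circleMap]
    rw [h1, ← Complex.exp_conj, map_mul, Complex.conj_ofReal, Complex.conj_I, ← Complex.exp_nat_mul,
      ← Complex.exp_nat_mul, ← Complex.exp_add]
    congr 1
    push_cast
    ring
  rw [Real.circleAverage_def]
  simp_rw [hf]
  by_cases hkj : k = j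
  · subst hkj
    simp only [sub_self, Int.cast_zero, zero_mul, Complex.exp_zero, if_true]
    rw [intervalIntegral.integral_const, sub_zero, smul_smul, inv_mul_cancel₀ hpi, one_smul]
  · rw [if_neg hkj]
    have hne : ((k : ℤ) - (j : ℤ) : ℤ) ≠ 0 := by omega
    have hc : ((((k : ℤ) - (j : ℤ) : ℤ) : ℂ) * Complex.I) ≠ 0 :=
      mul_ne_zero (by exact_mod_cast hne) Complex.I_ne_zero
    rw [integral_exp_mul_complex hc]
    have h2 : Complex.exp ((((k : ℤ) - (j : ℤ) : ℤ) : ℂ) * Complex.I * ((2 * Real.pi : ℝ) : ℂ)) = 1 := by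
      have := Complex.exp_int_mul_two_pi_mul_I ((k : ℤ) - (j : ℤ))
      rw [← this]
      congr 1
      push_cast
      ring
    rw [h2]
    simp

private lemma u2_int (g : ℂ → ℂ) (hg : Continuous g) : CircleIntegrable g 0 1 :=
  hg.continuousOn.circleIntegrable (by norm_num)

/-- the weights of the kernel -/
private noncomputable def u2_w (j : ℕ) : ℂ := if j = 0 then 1 else 2

private lemma u2_KN (N : ℕ) (c : ℂ) : KN N c = ∑ j ∈ Finset.range (N + 1), u2_w j * c ^ j := by
  unfold KN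
  rw [Finset.sum_range_succ']
  have h1 : ∑ k ∈ Finset.range N, u2_w (k + 1) * c ^ (k + 1) = 2 * ∑ k ∈ Finset.Icc 1 N, c ^ k := by
    rw [Finset.mul_sum, Finset.range_eq_Ico, Finset.sum_Ico_add' (fun k => u2_w k * c ^ k) 0 N 1]
    have : Finset.Ico (0 + 1) (N + 1) = Finset.Icc 1 N := by
      ext x
      simp only [Finset.mem_Ico, Finset.mem_Icc]
      omega
    rw [this]
    apply Finset.sum_congr rfl
    intro k hk
    have : k ≠ 0 := by
      have := (Finset.mem_Icc.mp hk).1
      omega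
    simp [u2_w, this]
  rw [h1]
  simp [u2_w, add_comm]

private lemma u2_poly (N : ℕ) (f : MvPolynomial (Fin n) ℂ) (hf : f.totalDegree ≤ N) (z : E n) :
    ∃ a : ℕ → ℂ, ∀ c : ℂ, ev f (c • z) = ∑ k ∈ Finset.range (N + 1), a k * c ^ k := by
  set P : Polynomial ℂ := MvPolynomial.aeval (fun i => Polynomial.C (z i) * Polynomial.X) f with hP
  have hdeg : P.natDegree ≤ N := by
    have := MvPolynomial.aeval_natDegree_le (m := N) (n := 1) f hf
      (fun i => Polynomial.C (z i) * Polynomial.X) (fun i => by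
        simpa using Polynomial.natDegree_C_mul_X_pow_le (z i) 1)
    simpa using this
  refine ⟨P.coeff, fun c => ?_⟩
  rw [← Polynomial.eval_eq_sum_range' (by omega) c]
  have h1 : Polynomial.eval c P = MvPolynomial.eval (fun i => z i * c) f := by
    rw [hP, MvPolynomial.aeval_def, ← Polynomial.coe_evalRingHom, MvPolynomial.hom_eval₂,
      MvPolynomial.eval, MvPolynomial.coe_eval₂Hom]
    congr 1
    · ext x
      simp
    · ext i
      simp
  rw [h1]
  unfold ev
  have h2 : (fun i => (c • z) i) = fun i => z i * c := by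
    funext i
    simp [mul_comm]
  rw [h2]

/-- (u2, size 3) Reproducing formula. PROOF. `c ↦ ev f (c • z)` is a polynomial of degree `≤ N` in `c` (a sum of `a k * c ^ k`, `k ≤ N`, `a 0 = ev f 0` real): by induction / `MvPolynomial` as a sum of monomials.
The circle averages of `c ^ k * conj c ^ j` are `1` for `k = j`, otherwise `0`. -/
theorem repr (N : ℕ) (f : MvPolynomial (Fin n) ℂ) (hf : f.totalDegree ≤ N)
    (h0 : (ev f 0).im = 0) (z : E n) :
    ev f z = Real.circleAverage (fun c : ℂ => ((ev f (c • z)).re : ℂ) * KN N (conj c)) 0 1 := by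
  obtain ⟨a, ha⟩ := u2_poly N f hf z
  have ha0 : ev f 0 = a 0 := by
    have := ha 0
    rw [zero_smul] at this
    rw [this, Finset.sum_range_succ']
    simp
  have ha1 : ev f z = ∑ k ∈ Finset.range (N + 1), a k := by
    have := ha 1
    rw [one_smul] at this
    simpa using this
  have hconj0 : conj (a 0) = a 0 := by
    rw [Complex.conj_eq_iff_im, ← ha0, h0]
  have hfun : (fun c : ℂ => ((ev f (c • z)).re : ℂ) * KN N (conj c)) =
      fun c : ℂ => ∑ k ∈ Finset.range (N + 1), ∑ j ∈ Finset.range (N + 1),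
        ((a k * u2_w j / 2) * (c ^ k * (conj c) ^ j) +
          (conj (a k) * u2_w j / 2) * (c ^ 0 * (conj c) ^ (k + j))) := by
    ext c
    rw [u2_KN, Complex.re_eq_add_conj, ha c, map_sum, ← Finset.sum_add_distrib, Finset.sum_div,
      Finset.sum_mul_sum]
    apply Finset.sum_congr rfl
    intro k _
    apply Finset.sum_congr rfl
    intro j _
    rw [map_mul, map_pow, pow_add]
    ring
  rw [hfun, Real.circleAverage_fun_sum (fun k _ => u2_int _ (by fun_prop))]
  have hk : ∀ k ∈ Finset.range (N + 1), Real.circleAverage (fun c : ℂ =>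
      ∑ j ∈ Finset.range (N + 1), ((a k * u2_w j / 2) * (c ^ k * (conj c) ^ j) +
          (conj (a k) * u2_w j / 2) * (c ^ 0 * (conj c) ^ (k + j)))) 0 1 =
        a k * u2_w k / 2 + (if k = 0 then conj (a 0) / 2 else 0) := by
    intro k hk
    rw [Real.circleAverage_fun_sum (fun j _ => u2_int _ (by fun_prop))]
    have hj : ∀ j ∈ Finset.range (N + 1), Real.circleAverage (fun c : ℂ =>
        ((a k * u2_w j / 2) * (c ^ k * (conj c) ^ j) +
          (conj (a k) * u2_w j / 2) * (c ^ 0 * (conj c) ^ (k + j)))) 0 1 =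
        (if k = j then a k * u2_w j / 2 else 0) +
          (if j = 0 then (if k = 0 then conj (a 0) / 2 else 0) else 0) := by
      intro j _
      rw [Real.circleAverage_fun_add (u2_int _ (by fun_prop)) (u2_int _ (by fun_prop))]
      have e1 := Real.circleAverage_fun_smul (a := (a k * u2_w j / 2 : ℂ)) (c := 0) (R := 1)
        (f := fun c : ℂ => c ^ k * (conj c) ^ j)
      have e2 := Real.circleAverage_fun_smul (a := (conj (a k) * u2_w j / 2 : ℂ)) (c := 0) (R := 1)
        (f := fun c : ℂ => c ^ 0 * (conj c) ^ (k + j))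
      simp only [smul_eq_mul] at e1 e2
      rw [e1, e2, u2_avg, u2_avg]
      congr 1
      · split_ifs <;> simp
      · by_cases hj0 : j = 0
        · by_cases hk0 : k = 0
          · subst hj0; subst hk0
            simp [u2_w]
          · have : ¬ (0 = k + j) := by omega
            simp [this, hk0]
        · have : ¬ (0 = k + j) := by omega
          simp [this, hj0]
    rw [Finset.sum_congr rfl hj, Finset.sum_add_distrib, Finset.sum_ite_eq, if_pos hk,
      Finset.sum_ite_eq', if_pos (Finset.mem_range.mpr (by omega))]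
  rw [Finset.sum_congr rfl hk, Finset.sum_add_distrib, Finset.sum_ite_eq',
    if_pos (Finset.mem_range.mpr (by omega)), hconj0, ha1, Finset.sum_range_succ',
    Finset.sum_range_succ']
  have h3 : ∀ k ∈ Finset.range N, a (k + 1) * u2_w (k + 1) / 2 = a (k + 1) := by
    intro k _
    simp [u2_w]
  rw [Finset.sum_congr rfl h3]
  simp only [u2_w, if_true]
  ring
-- END u2

-- BEGIN u3
private theorem u3_swap (hn : 1 ≤ n) (g : E n → ℝ) (hg : Continuous g) (k : ℂ → ℝ) (hk : Continuous k) :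
    A n (fun z => Real.circleAverage (fun c : ℂ => g (c • z) * k c) 0 1) =
      Real.circleAverage k 0 1 * A n g := by
  have hfin : volume (Bl n) < ⊤ := by
    have h := A_int hn (fun _ => (1 : ℝ)) continuousOn_const
    have h2 := (integrableOn_const_iff (C := (1 : ℝ)) (μ := volume) (s := Bl n)).1 h
    rcases h2 with h2 | h2
    · exact absurd h2 (by simp)
    · exact h2
  have hfm : IsFiniteMeasure (volume.restrict (Bl n)) := ⟨by
    rw [Measure.restrict_apply_univ]; exact hfin⟩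
  have hnzm : Measurable (fun z : Fin n → ℂ => (WithLp.toLp 2 (nz z) : E n)) := by
    have h : Measurable (fun z : Fin n → ℂ => nz z) := by
      refine measurable_pi_lambda _ fun i => ?_
      unfold nz
      refine (measurable_pi_apply i).div ?_
      refine Complex.measurable_ofReal.comp ?_
      refine Real.continuous_sqrt.measurable.comp ?_
      exact Finset.measurable_sum _ fun j _ => ((measurable_pi_apply j).norm).pow_const 2
    exact (PiLp.continuous_toLp 2 _).measurable.comp h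
  have hnz1 : ∀ z : Fin n → ℂ, ‖(WithLp.toLp 2 (nz z) : E n)‖ ≤ 1 := by
    intro z
    rw [EuclideanSpace.norm_eq]
    refine Real.sqrt_le_one.2 ?_
    show ∑ i, ‖nz z i‖ ^ 2 ≤ 1
    unfold nz
    have e : ∀ i, ‖z i / ((Real.sqrt (∑ j, ‖z j‖ ^ 2) : ℝ) : ℂ)‖ ^ 2 =
        ‖z i‖ ^ 2 / (∑ j, ‖z j‖ ^ 2) := by
      intro i
      rw [norm_div, Complex.norm_real, div_pow, Real.norm_eq_abs, sq_abs,
        Real.sq_sqrt (Finset.sum_nonneg fun j _ => by positivity)]
    simp only [e]
    rw [← Finset.sum_div]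
    exact div_self_le_one _
  obtain ⟨C, hC⟩ := (isCompact_closedBall (0 : E n) 1).exists_bound_of_continuousOn
    hg.continuousOn
  obtain ⟨D, hD⟩ := (isCompact_closedBall (0 : ℂ) 1).exists_bound_of_continuousOn
    hk.continuousOn
  have hcm : ∀ t : ℝ, ‖circleMap 0 1 t‖ = 1 := fun t => by rw [norm_circleMap_zero, abs_one]
  have hF : Integrable (Function.uncurry (fun (z : Fin n → ℂ) (t : ℝ) =>
      g (circleMap 0 1 t • (WithLp.toLp 2 (nz z) : E n)) * k (circleMap 0 1 t)))
      ((volume.restrict (Bl n)).prod (volume.restrict (Set.Ioc 0 (2 * Real.pi)))) := by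
    refine Integrable.of_bound ?_ (C * D) (Filter.Eventually.of_forall fun p => ?_)
    · refine Measurable.aestronglyMeasurable ?_
      refine Measurable.mul ?_ ?_
      · refine hg.measurable.comp ?_
        exact ((continuous_circleMap 0 1).measurable.comp measurable_snd).smul
          (hnzm.comp measurable_fst)
      · exact (hk.comp (continuous_circleMap 0 1)).measurable.comp measurable_snd
    · show ‖g (circleMap 0 1 p.2 • (WithLp.toLp 2 (nz p.1) : E n)) * k (circleMap 0 1 p.2)‖ ≤ C * D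
      rw [norm_mul]
      have h1 := hC (circleMap 0 1 p.2 • (WithLp.toLp 2 (nz p.1) : E n)) (by
        rw [mem_closedBall_zero_iff, norm_smul, hcm, one_mul]
        exact hnz1 _)
      have h2 := hD (circleMap 0 1 p.2) (by rw [mem_closedBall_zero_iff, hcm])
      exact mul_le_mul h1 h2 (norm_nonneg _) ((norm_nonneg _).trans h1)
  have hpi : (0 : ℝ) ≤ 2 * Real.pi := by positivity
  have h1 : A n (fun z => Real.circleAverage (fun c : ℂ => g (c • z) * k c) 0 1)
      = ∫ z in Bl n, (2 * Real.pi)⁻¹ * ∫ t in Set.Ioc 0 (2 * Real.pi),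
        g (circleMap 0 1 t • (WithLp.toLp 2 (nz z) : E n)) * k (circleMap 0 1 t) := by
    unfold A
    refine integral_congr_ae (Filter.Eventually.of_forall fun z => ?_)
    show Real.circleAverage _ 0 1 = _
    rw [Real.circleAverage_def, smul_eq_mul, intervalIntegral.integral_of_le hpi]
  rw [h1, integral_const_mul, integral_integral_swap hF]
  have h2 : ∀ t : ℝ, ∫ z in Bl n, g (circleMap 0 1 t • (WithLp.toLp 2 (nz z) : E n)) *
      k (circleMap 0 1 t) = k (circleMap 0 1 t) * A n g := by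
    intro t
    rw [integral_mul_const, mul_comm]
    congr 1
    exact A_rot g (circleMap 0 1 t) (hcm t)
  rw [setIntegral_congr_fun (g := fun t => k (circleMap 0 1 t) * A n g) measurableSet_Ioc
    (fun t _ => h2 t), integral_mul_const, ← mul_assoc]
  rw [Real.circleAverage_def, smul_eq_mul, intervalIntegral.integral_of_le hpi]

/-- (u3, size 2) The upper bound; the constant does not depend on `n`. PROOF. `repr`, the triangle inequality, Fubini, `A_rot` (`A |re ev f (c • z)| = A |re ev f z|`), `KN_norm`. -/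
theorem upp_all : ∃ C : ℝ, 0 < C ∧ ∀ n : ℕ, 1 ≤ n → ∀ N : ℕ, 1 ≤ N →
    ∀ f : MvPolynomial (Fin n) ℂ, f.totalDegree ≤ N → (ev f 0).im = 0 →
      A n (fun z => ‖ev f z‖) ≤ C * Real.log (N + 1) * A n (fun z => |(ev f z).re|) := by
  obtain ⟨C, hC, hCN⟩ := KN_norm
  refine ⟨C, hC, fun n hn N hN f hf h0 => ?_⟩
  have hev : Continuous (fun z : E n => ev f z) := (ev_diff f).continuous
  have hgc : Continuous (fun z : E n => |(ev f z).re|) := (Complex.continuous_re.comp hev).abs
  have hKc : Continuous (fun c : ℂ => ‖KN N (conj c)‖) := by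
    unfold KN
    refine Continuous.norm ?_
    refine continuous_const.add (continuous_const.mul ?_)
    exact continuous_finsetSum _ fun k _ => Complex.continuous_conj.pow k
  have h1 : A n (fun z => ‖ev f z‖) ≤
      A n (fun z => Real.circleAverage (fun c : ℂ => |(ev f (c • z)).re| * ‖KN N (conj c)‖) 0 1) := by
    have hcont2 : Continuous (fun z : E n =>
        Real.circleAverage (fun c : ℂ => |(ev f (c • z)).re| * ‖KN N (conj c)‖) 0 1) := by
      have hj : Continuous (fun p : E n × ℝ => |(ev f (circleMap 0 1 p.2 • p.1)).re| *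
          ‖KN N (conj (circleMap 0 1 p.2))‖) :=
        (hgc.comp (((continuous_circleMap 0 1).comp continuous_snd).smul continuous_fst)).mul
          (hKc.comp ((continuous_circleMap 0 1).comp continuous_snd))
      have h2 := intervalIntegral.continuous_parametric_intervalIntegral_of_continuous'
        (f := fun (z : E n) (t : ℝ) => |(ev f (circleMap 0 1 t • z)).re| *
          ‖KN N (conj (circleMap 0 1 t))‖) (μ := volume) hj 0 (2 * Real.pi)
      exact h2.const_smul ((2 * Real.pi)⁻¹ : ℝ)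
    refine A_mono hn _ _ hev.norm.continuousOn hcont2.continuousOn fun z hz => ?_
    rw [repr N f hf h0 z, Real.circleAverage_def, Real.circleAverage_def, norm_smul,
      smul_eq_mul]
    have hpi : (0 : ℝ) ≤ 2 * Real.pi := by positivity
    rw [Real.norm_of_nonneg (inv_nonneg.2 hpi)]
    refine mul_le_mul_of_nonneg_left ?_ (inv_nonneg.2 hpi)
    refine (intervalIntegral.norm_integral_le_integral_norm hpi).trans (le_of_eq ?_)
    refine intervalIntegral.integral_congr fun t _ => ?_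
    show ‖(((ev f (circleMap 0 1 t • z)).re : ℝ) : ℂ) * KN N (conj (circleMap 0 1 t))‖ = _
    rw [norm_mul, Complex.norm_real, Real.norm_eq_abs]
  rw [u3_swap hn (fun z => |(ev f z).re|) hgc (fun c => ‖KN N (conj c)‖) hKc] at h1
  refine h1.trans ?_
  refine mul_le_mul_of_nonneg_right (hCN N hN) ?_
  unfold A
  exact integral_nonneg fun z => abs_nonneg _
-- END u3

end Pool.Agent.Sph
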