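import Mathlib

/-! Real part and L1 norm on the sphere of `ℂ ^ n`: definitions.
Text: team-store MP_6b57c7_an_growth_helper53.md. -/

set_option autoImplicit false

namespace Pool.Agent.Sph

open MeasureTheory ComplexConjugate

/-- `ℂ ^ n` with the euclidean norm -/
abbrev E (n : ℕ) := EuclideanSpace ℂ (Fin n)

/-- evaluation of a polynomial -/
noncomputable def ev {n : ℕ} (p : MvPolynomial (Fin n) ℂ) (z : E n) : ℂ :=
  MvPolynomial.eval (fun i => z i) p

/-- the peak function -/
noncomputable def ker (m L : ℕ) (l : ℂ) : ℂ := l * ((∑ k ∈ Finset.range m, l ^ k) / m) ^ L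

/-- `x log x` -/
noncomputable def phi (x : ℝ) : ℝ := x * Real.log x

/-- radial projection to the sphere -/
noncomputable def nz {n : ℕ} (z : Fin n → ℂ) : Fin n → ℂ :=
  fun i => z i / ((Real.sqrt (∑ j, ‖z j‖ ^ 2) : ℝ) : ℂ)

/-- the closed unit ball -/
def Bl (n : ℕ) : Set (Fin n → ℂ) := {z | ∑ i, ‖z i‖ ^ 2 ≤ 1}

/-- the integral over the sphere (volume of the ball, pushed radially) -/
noncomputable def A (n : ℕ) (g : E n → ℝ) : ℝ := ∫ z in Bl n, g (WithLp.toLp 2 (nz z))

/-- the unit sphere -/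
abbrev Sp (n : ℕ) : Set (E n) := Metric.sphere (0 : E n) 1

end Pool.Agent.Sph
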