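import Pool.Agent.Sph.Defs

/-! The integral over the sphere. -/

set_option autoImplicit false

namespace Pool.Agent.Sph

open MeasureTheory ComplexConjugate

variable {n : ℕ}

-- BEGIN m1
private theorem m1_sum_pos {z : Fin n → ℂ} (hz : z ≠ 0) : 0 < ∑ j, ‖z j‖ ^ 2 := by
  obtain ⟨i, hi⟩ := Function.ne_iff.1 hz
  exact Finset.sum_pos' (fun _ _ => by positivity) ⟨i, Finset.mem_univ _, by
    have := norm_pos_iff.2 hi
    positivity⟩

private theorem m1_nz_norm {z : Fin n → ℂ} (hz : z ≠ 0) :
    ‖(WithLp.toLp 2 (nz z) : E n)‖ = 1 := by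
  have h := m1_sum_pos hz
  rw [EuclideanSpace.norm_eq]
  have h1 : ∑ j, ‖nz z j‖ ^ 2 = 1 := by
    have h2 : ∀ j, ‖nz z j‖ ^ 2 = ‖z j‖ ^ 2 / ∑ j, ‖z j‖ ^ 2 := by
      intro j
      simp only [nz, norm_div, Complex.norm_real, Real.norm_eq_abs, div_pow, sq_abs]
      rw [Real.sq_sqrt h.le]
    simp only [h2]
    rw [← Finset.sum_div, div_self h.ne']
  have h3 : ∑ i, ‖(WithLp.toLp 2 (nz z) : E n) i‖ ^ 2 = 1 := h1
  rw [h3, Real.sqrt_one]

private theorem m1_contOn (g : E n → ℝ) (hg : ContinuousOn g (Sp n)) :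
    ContinuousOn (fun z : Fin n → ℂ => g (WithLp.toLp 2 (nz z))) {0}ᶜ := by
  refine hg.comp (t := Sp n) (f := fun z : Fin n → ℂ => (WithLp.toLp 2 (nz z) : E n)) ?_ ?_
  · refine (PiLp.continuous_toLp 2 _).comp_continuousOn ?_
    refine continuousOn_pi.2 fun i => ?_
    refine ContinuousOn.div (continuous_apply i).continuousOn ?_ ?_
    · exact (Complex.continuous_ofReal.comp (Real.continuous_sqrt.comp
        (continuous_finset_sum _ fun j _ => ((continuous_apply j).norm.pow 2)))).continuousOn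
    · intro z hz
      have h := m1_sum_pos (n := n) (z := z) (by simpa using hz)
      have h2 := Real.sqrt_pos.2 h
      exact_mod_cast h2.ne'
  · intro z hz
    simpa [Sp] using m1_nz_norm (n := n) (z := z) (by simpa using hz)

private theorem m1_ae (hn : 1 ≤ n) : ∀ᵐ z : Fin n → ℂ, z ∈ ({0}ᶜ : Set (Fin n → ℂ)) := by
  haveI : Nonempty (Fin n) := ⟨⟨0, hn⟩⟩
  haveI : Nontrivial (Fin n → ℂ) := inferInstance
  have h : volume ({0} : Set (Fin n → ℂ)) = 0 := measure_singleton _
  exact measure_eq_zero_iff_ae_notMem.1 h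

private theorem m1_fin : volume (Bl n) ≠ ⊤ := by
  have h : Bl n ⊆ Metric.closedBall (0 : Fin n → ℂ) 1 := by
    intro z hz
    rw [mem_closedBall_zero_iff]
    refine (pi_norm_le_iff_of_nonneg zero_le_one).2 fun i => ?_
    have h1 : ‖z i‖ ^ 2 ≤ ∑ j, ‖z j‖ ^ 2 :=
      Finset.single_le_sum (f := fun j => ‖z j‖ ^ 2) (fun _ _ => by positivity)
        (Finset.mem_univ i)
    have h2 : ‖z i‖ ^ 2 ≤ 1 := h1.trans hz
    nlinarith [norm_nonneg (z i)]
  exact ((measure_mono h).trans_lt Metric.isBounded_closedBall.measure_lt_top).ne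

/-- (m1, size 2) PROOF. `z ↦ toLp 2 (nz z)` maps `z ≠ 0` to the sphere and is continuous there, `g` is bounded on the (compact) sphere, `{0}` is a null set (`1 ≤ n`), `Bl n` has finite measure
(it lies in the closed ball of radius `1` of `Fin n → ℂ`). The file Pool/Agent/MP_6b57c7_an/Final.lean on main contains such computations. -/
theorem A_int (hn : 1 ≤ n) (g : E n → ℝ) (hg : ContinuousOn g (Sp n)) :
    IntegrableOn (fun z : Fin n → ℂ => g (WithLp.toLp 2 (nz z))) (Bl n) := by
  obtain ⟨C, hC⟩ := (isCompact_sphere (0 : E n) 1).exists_bound_of_continuousOn hg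
  have hae := m1_ae hn
  have hmeas : AEStronglyMeasurable (fun z : Fin n → ℂ => g (WithLp.toLp 2 (nz z))) volume := by
    have h := (m1_contOn g hg).aestronglyMeasurable (μ := (volume : Measure (Fin n → ℂ)))
      (MeasurableSet.singleton (0 : Fin n → ℂ)).compl
    rwa [Measure.restrict_eq_self_of_ae_mem hae] at h
  refine Measure.integrableOn_of_bounded (M := C) m1_fin hmeas ?_
  refine ae_restrict_of_ae ?_
  filter_upwards [hae] with z hz
  exact hC _ (by simpa [Sp] using m1_nz_norm (n := n) (z := z) (by simpa using hz))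
-- END m1

-- BEGIN m2
/-- (m2, size 1) -/
theorem A_mul (c : ℝ) (g : E n → ℝ) : A n (fun z => c * g z) = c * A n g := by
  exact integral_const_mul _ _

theorem A_add (hn : 1 ≤ n) (g h : E n → ℝ) (hg : ContinuousOn g (Sp n))
    (hh : ContinuousOn h (Sp n)) : A n (fun z => g z + h z) = A n g + A n h := by
  exact integral_add (A_int hn g hg) (A_int hn h hh)

private theorem m2_ae (hn : 1 ≤ n) :
    ∀ᵐ z : Fin n → ℂ, ‖(WithLp.toLp 2 (nz z) : E n)‖ = 1 := by
  haveI : Nonempty (Fin n) := ⟨⟨0, hn⟩⟩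
  haveI : Nontrivial (Fin n → ℂ) := inferInstance
  have h : volume ({0} : Set (Fin n → ℂ)) = 0 := measure_singleton _
  filter_upwards [measure_eq_zero_iff_ae_notMem.1 h] with z hz
  have hz' : z ≠ 0 := by simpa using hz
  obtain ⟨i, hi⟩ := Function.ne_iff.1 hz'
  have h : 0 < ∑ j, ‖z j‖ ^ 2 :=
    Finset.sum_pos' (fun _ _ => by positivity) ⟨i, Finset.mem_univ _, by
      have := norm_pos_iff.2 hi
      positivity⟩
  rw [EuclideanSpace.norm_eq]
  have h1 : ∑ j, ‖nz z j‖ ^ 2 = 1 := by
    have h2 : ∀ j, ‖nz z j‖ ^ 2 = ‖z j‖ ^ 2 / ∑ j, ‖z j‖ ^ 2 := by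
      intro j
      simp only [nz, norm_div, Complex.norm_real, Real.norm_eq_abs, div_pow, sq_abs]
      rw [Real.sq_sqrt h.le]
    simp only [h2]
    rw [← Finset.sum_div, div_self h.ne']
  have h3 : ∑ i, ‖(WithLp.toLp 2 (nz z) : E n) i‖ ^ 2 = 1 := h1
  rw [h3, Real.sqrt_one]

theorem A_mono (hn : 1 ≤ n) (g h : E n → ℝ) (hg : ContinuousOn g (Sp n))
    (hh : ContinuousOn h (Sp n)) (hle : ∀ z : E n, ‖z‖ = 1 → g z ≤ h z) : A n g ≤ A n h := by
  refine integral_mono_ae (A_int hn g hg) (A_int hn h hh) ?_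
  refine ae_restrict_of_ae ?_
  filter_upwards [m2_ae hn] with z hz
  exact hle _ hz

theorem A_congr (hn : 1 ≤ n) (g h : E n → ℝ) (hle : ∀ z : E n, ‖z‖ = 1 → g z = h z) :
    A n g = A n h := by
  refine integral_congr_ae ?_
  refine ae_restrict_of_ae ?_
  filter_upwards [m2_ae hn] with z hz
  exact hle _ hz

theorem A_sum (hn : 1 ≤ n) {ι : Type} (T : Finset ι) (g : ι → E n → ℝ)
    (hg : ∀ i ∈ T, ContinuousOn (g i) (Sp n)) :
    A n (fun z => ∑ i ∈ T, g i z) = ∑ i ∈ T, A n (g i) := by
  exact integral_finset_sum T fun i hi => A_int hn (g i) (hg i hi)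

theorem A_pos : 0 < A n (fun _ => 1) := by
  have hfin : volume (Bl n) ≠ ⊤ := by
    have h : Bl n ⊆ Metric.closedBall (0 : Fin n → ℂ) 1 := by
      intro z hz
      rw [mem_closedBall_zero_iff]
      refine (pi_norm_le_iff_of_nonneg zero_le_one).2 fun i => ?_
      have h1 : ‖z i‖ ^ 2 ≤ ∑ j, ‖z j‖ ^ 2 :=
        Finset.single_le_sum (f := fun j => ‖z j‖ ^ 2) (fun _ _ => by positivity)
          (Finset.mem_univ i)
      have h2 : ‖z i‖ ^ 2 ≤ 1 := h1.trans hz
      nlinarith [norm_nonneg (z i)]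
    exact ((measure_mono h).trans_lt Metric.isBounded_closedBall.measure_lt_top).ne
  have hopen : IsOpen {z : Fin n → ℂ | ∑ i, ‖z i‖ ^ 2 < 1} :=
    isOpen_lt (continuous_finset_sum _ fun j _ => ((continuous_apply j).norm.pow 2))
      continuous_const
  have hpos : 0 < volume {z : Fin n → ℂ | ∑ i, ‖z i‖ ^ 2 < 1} :=
    hopen.measure_pos _ ⟨0, by simp⟩
  have hpos2 : 0 < volume (Bl n) :=
    hpos.trans_le (measure_mono fun z (hz : ∑ i, ‖z i‖ ^ 2 < 1) => (le_of_lt hz : _ ≤ _))
  unfold A
  rw [setIntegral_const, smul_eq_mul, mul_one]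
  exact ENNReal.toReal_pos hpos2.ne' hfin
-- END m2

-- BEGIN m3
/-- (m3, size 2) Rotation invariance. PROOF. The map `z ↦ c • z` of `Fin n → ℂ`, `‖c‖ = 1`, preserves the volume (`‖c‖ = 1` in every coordinate; `MeasurePreserving.pi` / `volume_preserving_pi`, or the determinant)
and `Bl n`, and commutes with `nz`. -/
theorem A_rot (g : E n → ℝ) (c : ℂ) (hc : ‖c‖ = 1) : A n (fun z => g (c • z)) = A n g := by
  have hc0 : c ≠ 0 := by
    rintro rfl
    simp at hc
  have h1 : MeasurePreserving (fun z : ℂ => c * z) volume volume := by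
    have h2 := (rotation ⟨c, mem_sphere_zero_iff_norm.2 hc⟩).measurePreserving
    exact h2
  have h2 : MeasurePreserving (fun z : Fin n → ℂ => fun i => c * z i) volume volume :=
    volume_preserving_pi fun _ => h1
  have h3 : MeasurableEmbedding (fun z : Fin n → ℂ => fun i => c * z i) :=
    (Homeomorph.smulOfNeZero c hc0 : (Fin n → ℂ) ≃ₜ (Fin n → ℂ)).measurableEmbedding
  have h4 := h2.setIntegral_preimage_emb h3 (fun z => g (WithLp.toLp 2 (nz z))) (Bl n)
  have h5 : (fun z : Fin n → ℂ => fun i => c * z i) ⁻¹' Bl n = Bl n := by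
    ext z
    change ∑ i, ‖c * z i‖ ^ 2 ≤ 1 ↔ ∑ i, ‖z i‖ ^ 2 ≤ 1
    simp only [norm_mul, hc, one_mul]
  rw [h5] at h4
  unfold A
  rw [← h4]
  congr 1
  funext z
  change g (c • WithLp.toLp 2 (nz z)) = g (WithLp.toLp 2 (nz fun i => c * z i))
  congr 1
  ext i
  change c * (z i / ((Real.sqrt (∑ j, ‖z j‖ ^ 2) : ℝ) : ℂ)) =
    c * z i / ((Real.sqrt (∑ j, ‖c * z j‖ ^ 2) : ℝ) : ℂ)
  simp only [norm_mul, hc, one_mul]
  rw [mul_div_assoc]
-- END m3

-- BEGIN m4
theorem m4_meas {n : ℕ} (g : E n → ℝ) (hg : ContinuousOn g (Sp n)) :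
    Measurable ((Sp n).indicator g) := by
  classical
  have h : (Sp n).indicator g = (Sp n).piecewise g (fun _ => 0) := by
    funext z
    by_cases hz : z ∈ Sp n
    · rw [Set.indicator_of_mem hz, Set.piecewise_eq_of_mem _ _ _ hz]
    · rw [Set.indicator_of_notMem hz, Set.piecewise_eq_of_notMem _ _ _ hz]
  rw [h]
  exact hg.measurable_piecewise continuousOn_const Metric.isClosed_sphere.measurableSet

theorem m4_nz {n : ℕ} : Measurable (fun z : Fin n → ℂ => (WithLp.toLp 2 (nz z) : E n)) := by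
  have h : Measurable (fun z : Fin n → ℂ => nz z) := by
    refine measurable_pi_lambda _ fun i => ?_
    unfold nz
    refine (measurable_pi_apply i).div ?_
    refine Complex.measurable_ofReal.comp ?_
    refine Real.continuous_sqrt.measurable.comp ?_
    exact Finset.measurable_sum _ fun j _ => ((measurable_pi_apply j).norm).pow_const 2
  exact (PiLp.continuous_toLp 2 _).measurable.comp h

theorem m4_aux {n : ℕ} (hn : 1 ≤ n) (g : E n → ℝ) (hm : Measurable g) (C : ℝ)
    (hC : ∀ z, ‖g z‖ ≤ C) :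
    A n (fun z => Real.circleAverage (fun c : ℂ => g (c • z)) 0 1) = A n g := by
  have hfin : volume (Bl n) < ⊤ := by
    have h := A_int hn (fun _ => (1 : ℝ)) continuousOn_const
    have h2 := (integrableOn_const_iff (C := (1 : ℝ)) (μ := volume) (s := Bl n)).1 h
    rcases h2 with h2 | h2
    · exact absurd h2 (by simp)
    · exact h2
  have hfm : IsFiniteMeasure (volume.restrict (Bl n)) := ⟨by
    rw [Measure.restrict_apply_univ]; exact hfin⟩
  have hF : Integrable (Function.uncurry (fun (z : Fin n → ℂ) (t : ℝ) =>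
      g (circleMap 0 1 t • (WithLp.toLp 2 (nz z) : E n))))
      ((volume.restrict (Bl n)).prod (volume.restrict (Set.Ioc 0 (2 * Real.pi)))) := by
    refine Integrable.of_bound ?_ C (Filter.Eventually.of_forall fun p => hC _)
    refine Measurable.aestronglyMeasurable ?_
    refine hm.comp ?_
    exact ((continuous_circleMap 0 1).measurable.comp measurable_snd).smul
      (m4_nz.comp measurable_fst)
  have hpi : (0 : ℝ) ≤ 2 * Real.pi := by positivity
  have h1 : A n (fun z => Real.circleAverage (fun c : ℂ => g (c • z)) 0 1)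
      = ∫ z in Bl n, (2 * Real.pi)⁻¹ * ∫ t in Set.Ioc 0 (2 * Real.pi),
        g (circleMap 0 1 t • (WithLp.toLp 2 (nz z) : E n)) := by
    unfold A
    refine integral_congr_ae (Filter.Eventually.of_forall fun z => ?_)
    show Real.circleAverage _ 0 1 = _
    rw [Real.circleAverage_def, smul_eq_mul, intervalIntegral.integral_of_le hpi]
  rw [h1, integral_const_mul, integral_integral_swap hF]
  have h2 : ∀ t : ℝ, ∫ z in Bl n, g (circleMap 0 1 t • (WithLp.toLp 2 (nz z) : E n)) = A n g := by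
    intro t
    refine A_rot g (circleMap 0 1 t) ?_
    rw [norm_circleMap_zero, abs_one]
  rw [setIntegral_congr_fun (g := fun _ => A n g) measurableSet_Ioc (fun t _ => h2 t),
    setIntegral_const, smul_eq_mul, Measure.real, Real.volume_Ioc, sub_zero,
    ENNReal.toReal_ofReal hpi, ← mul_assoc, inv_mul_cancel₀ (by positivity), one_mul]

/-- (m4, size 3) Mean values. PROOF. `A_rot` and Fubini: `A g = ∫ z in Bl n, circleAverage (fun c => g (c • z)) 0 1`. -/
theorem A_circ (hn : 1 ≤ n) (g : E n → ℝ) (hg : ContinuousOn g (Sp n)) :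
    A n g = A n (fun z => Real.circleAverage (fun c : ℂ => g (c • z)) 0 1) := by
  obtain ⟨C, hC⟩ := (isCompact_sphere (0 : E n) 1).exists_bound_of_continuousOn hg
  have hC0 : ∀ z, ‖(Sp n).indicator g z‖ ≤ max C 0 := by
    intro z
    by_cases hz : z ∈ Sp n
    · rw [Set.indicator_of_mem hz]
      exact (hC z hz).trans (le_max_left _ _)
    · rw [Set.indicator_of_notMem hz, norm_zero]
      exact le_max_right _ _
  have h1 : A n g = A n ((Sp n).indicator g) := by
    refine A_congr hn _ _ fun z hz => ?_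
    rw [Set.indicator_of_mem (mem_sphere_zero_iff_norm.2 hz)]
  have h2 : A n (fun z => Real.circleAverage (fun c : ℂ => g (c • z)) 0 1)
      = A n (fun z => Real.circleAverage (fun c : ℂ => (Sp n).indicator g (c • z)) 0 1) := by
    refine A_congr hn _ _ fun z hz => ?_
    rw [Real.circleAverage_def, Real.circleAverage_def]
    have h3 : ∀ t : ℝ, g (circleMap 0 1 t • z) = (Sp n).indicator g (circleMap 0 1 t • z) := by
      intro t
      rw [Set.indicator_of_mem]
      rw [mem_sphere_zero_iff_norm, norm_smul, norm_circleMap_zero, abs_one, hz, one_mul]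
    simp only [h3]
  rw [h1, h2]
  exact (m4_aux hn _ (m4_meas g hg) (max C 0) hC0).symm
-- END m4

-- BEGIN m5
/-- (m5, size 2) PROOF. `A_circ`; for `z` on the sphere `c ↦ H (c • z)` is differentiable on a neighbourhood of the closed unit disc, the mean of its real part is `(H 0).re`
(`DiffContOnCl.circleAverage`). -/
theorem A_mvp (hn : 1 ≤ n) (H : E n → ℂ) (U : Set (E n)) (hU : IsOpen U)
    (hB : Metric.closedBall 0 1 ⊆ U) (hH : DifferentiableOn ℂ H U) :
    A n (fun z => (H z).re) = (H 0).re * A n (fun _ => 1) := by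
  have hg : ContinuousOn (fun z : E n => (H z).re) (Sp n) :=
    Complex.continuous_re.comp_continuousOn
      ((hH.continuousOn).mono (Metric.sphere_subset_closedBall.trans hB))
  rw [A_circ hn (fun z : E n => (H z).re) hg]
  have h1 : ∀ z : E n, ‖z‖ = 1 →
      Real.circleAverage (fun c : ℂ => (H (c • z)).re) 0 1 = (H 0).re * 1 := by
    intro z hz
    have hmem : ∀ c ∈ Metric.closedBall (0 : ℂ) 1, c • z ∈ U := by
      intro c hc
      apply hB
      rw [mem_closedBall_zero_iff] at hc ⊢
      rw [norm_smul, hz, mul_one]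
      exact hc
    have hd : DifferentiableOn ℂ (fun c : ℂ => H (c • z)) (Metric.closedBall (0 : ℂ) 1) := by
      intro c hc
      have h2 : DifferentiableAt ℂ H (c • z) :=
        (hH (c • z) (hmem c hc)).differentiableAt (hU.mem_nhds (hmem c hc))
      have h3 : DifferentiableAt ℂ (fun c : ℂ => c • z) c :=
        (differentiable_id.smul_const z) c
      exact (h2.comp c h3).differentiableWithinAt
    have hcl : closure (Metric.ball (0 : ℂ) |1|) ⊆ Metric.closedBall (0 : ℂ) 1 := by
      rw [abs_one]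
      exact Metric.closure_ball_subset_closedBall
    have hdc : DiffContOnCl ℂ (fun c : ℂ => H (c • z)) (Metric.ball (0 : ℂ) |1|) :=
      DifferentiableOn.diffContOnCl (hd.mono hcl)
    have h4 : Real.circleAverage (fun c : ℂ => H (c • z)) 0 1 = H ((0 : ℂ) • z) :=
      hdc.circleAverage
    have hci : CircleIntegrable (fun c : ℂ => H (c • z)) 0 1 := by
      apply ContinuousOn.circleIntegrable (by norm_num)
      exact hd.continuousOn.mono Metric.sphere_subset_closedBall
    have h5 := Complex.reCLM.circleAverage_comp_comm hci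
    have h6 : Real.circleAverage (fun c : ℂ => (H (c • z)).re) 0 1 =
        (Real.circleAverage (fun c : ℂ => H (c • z)) 0 1).re := h5
    rw [h6, h4, zero_smul, mul_one]
  rw [A_congr hn (fun z : E n => Real.circleAverage (fun c : ℂ => (H (c • z)).re) 0 1)
    (fun _ => (H 0).re * 1) h1, A_mul]
-- END m5

end Pool.Agent.Sph
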