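import Pool.Agent.Sph.Har
import Pool.Agent.Sph.Msr

/-! Entropy and the L1 norm. Text, (ENT). -/

set_option autoImplicit false

namespace Pool.Agent.Sph

open MeasureTheory ComplexConjugate

variable {n : ℕ}

-- BEGIN e1
/-- (e1, size 1) PROOF. `A_mvp` (`ev_diff`). -/
theorem A_re (hn : 1 ≤ n) (p : MvPolynomial (Fin n) ℂ) :
    A n (fun z => (ev p z).re) = (ev p 0).re * A n (fun _ => 1) := by
  exact A_mvp hn (ev p) Set.univ isOpen_univ (Set.subset_univ _) (ev_diff p).differentiableOn
-- END e1

-- BEGIN e2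
/-- (e2, size 2) PROOF. `H z = ev p z * Complex.log (ev p z)` on the open set where the real part is positive: `A_mvp`, `H 0 = 0`. On the sphere, `F = ev p z`: `phi F.re ≤ F.re * log ‖F‖ =
(H z).re + F.im * arg F ≤ (H z).re + π / 2 * ‖F‖` (`Complex.abs_arg_le_pi_div_two_iff`). -/
theorem ent (hn : 1 ≤ n) (p : MvPolynomial (Fin n) ℂ) (h : ∀ z : E n, ‖z‖ ≤ 1 → 0 < (ev p z).re)
    (h0 : ev p 0 = 1) :
    A n (fun z => phi (ev p z).re) ≤ Real.pi / 2 * A n (fun z => ‖ev p z‖) := by
  have hc : Continuous (ev p) := (ev_diff p).continuous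
  have hcr : Continuous fun z : E n => (ev p z).re := Complex.continuous_re.comp hc
  obtain ⟨U, hUdef⟩ : ∃ U : Set (E n), ∀ z, z ∈ U ↔ 0 < (ev p z).re := ⟨_, fun z => Iff.rfl⟩
  have hU : IsOpen U := by
    have h1 : U = {z | 0 < (ev p z).re} := Set.ext hUdef
    rw [h1]
    exact isOpen_lt continuous_const hcr
  have hB : Metric.closedBall 0 1 ⊆ U := by
    intro z hz
    rw [hUdef]
    exact h z (by simpa using hz)
  have hH : DifferentiableOn ℂ (fun z => ev p z * Complex.log (ev p z)) U := by
    intro z hz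
    have h1 : DifferentiableAt ℂ (ev p) z := (ev_diff p) z
    exact (h1.mul (h1.clog (Or.inl ((hUdef z).1 hz)))).differentiableWithinAt
  have hmvp := A_mvp hn (fun z => ev p z * Complex.log (ev p z)) U hU hB hH
  have h00 : ((fun z => ev p z * Complex.log (ev p z)) (0 : E n)).re = 0 := by
    simp [h0]
  rw [h00, zero_mul] at hmvp
  have hSU : Sp n ⊆ U := fun z hz => hB (Metric.sphere_subset_closedBall hz)
  have hHc : ContinuousOn (fun z : E n => (ev p z * Complex.log (ev p z)).re) (Sp n) :=
    Complex.continuous_re.comp_continuousOn (hH.continuousOn.mono hSU)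
  have hNc : ContinuousOn (fun z : E n => Real.pi / 2 * ‖ev p z‖) (Sp n) :=
    (continuous_const.mul hc.norm).continuousOn
  have hphi : ContinuousOn (fun z : E n => phi (ev p z).re) (Sp n) := by
    have h1 : Continuous fun z : E n => (ev p z).re * Real.log (ev p z).re :=
      Real.continuous_mul_log.comp hcr
    exact h1.continuousOn
  have hle := A_mono hn (fun z => phi (ev p z).re)
    (fun z => (ev p z * Complex.log (ev p z)).re + Real.pi / 2 * ‖ev p z‖) hphi
    (hHc.add hNc) (fun z hz => by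
      show (ev p z).re * Real.log (ev p z).re ≤
        (ev p z * Complex.log (ev p z)).re + Real.pi / 2 * ‖ev p z‖
      obtain ⟨F, hF⟩ : ∃ F, F = ev p z := ⟨_, rfl⟩
      have hF0 : 0 < F.re := by
        rw [hF]
        exact h z hz.le
      rw [← hF]
      have h1 : Real.log F.re ≤ Real.log ‖F‖ :=
        Real.log_le_log hF0 (Complex.re_le_norm F)
      have h2 : (F * Complex.log F).re = F.re * Real.log ‖F‖ - F.im * F.arg := by
        rw [Complex.mul_re, Complex.log_re, Complex.log_im]
      have h3 : |F.arg| ≤ Real.pi / 2 := Complex.abs_arg_le_pi_div_two_iff.2 hF0.le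
      have h4 : F.im * F.arg ≤ Real.pi / 2 * ‖F‖ := by
        calc F.im * F.arg ≤ |F.im * F.arg| := le_abs_self _
          _ = |F.im| * |F.arg| := abs_mul _ _
          _ ≤ ‖F‖ * (Real.pi / 2) :=
            mul_le_mul (Complex.abs_im_le_norm F) h3 (abs_nonneg _) (norm_nonneg _)
          _ = Real.pi / 2 * ‖F‖ := mul_comm _ _
      have h5 := mul_le_mul_of_nonneg_left h1 hF0.le
      rw [h2]
      linarith)
  rw [A_add hn _ _ hHc hNc, hmvp, zero_add, A_mul] at hle
  exact hle
-- END e2

end Pool.Agent.Sph
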