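import Pool.Agent.Sph.Defs

/-! Harnack's inequality for polynomials with positive real part. Text, (H). -/

set_option autoImplicit false

namespace Pool.Agent.Sph

open MeasureTheory ComplexConjugate

variable {n : ℕ}

-- BEGIN h0
/-- (h0, size 1) Polynomials are differentiable. PROOF. `MvPolynomial.induction_on`. -/
theorem ev_diff (p : MvPolynomial (Fin n) ℂ) : Differentiable ℂ (ev p) := by
  induction p using MvPolynomial.induction_on with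
  | C a =>
    have h : (ev (MvPolynomial.C a) : E n → ℂ) = fun _ => a := by
      funext z
      simp [ev]
    rw [h]
    exact differentiable_const a
  | add p q hp hq =>
    have h : (ev (p + q) : E n → ℂ) = fun z => ev p z + ev q z := by
      funext z
      simp [ev]
    rw [h]
    exact hp.add hq
  | mul_X p i hp =>
    have h : (ev (p * MvPolynomial.X i) : E n → ℂ) = fun z => ev p z * z i := by
      funext z
      simp [ev]
    rw [h]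
    exact hp.mul (EuclideanSpace.proj (𝕜 := ℂ) i).differentiable
-- END h0

-- BEGIN h1
private theorem h1_sub (a b : ℂ) : ‖a + conj b‖ ^ 2 - ‖a - b‖ ^ 2 = 4 * a.re * b.re := by
  rw [← Complex.normSq_eq_norm_sq, ← Complex.normSq_eq_norm_sq, Complex.normSq_apply,
    Complex.normSq_apply]
  simp only [Complex.add_re, Complex.add_im, Complex.conj_re, Complex.conj_im, Complex.sub_re,
    Complex.sub_im]
  ring

private theorem h1_ker (ρ : ℝ) (l μ : ℂ) : ‖(ρ : ℂ) ^ 2 - conj l * μ‖ ^ 2 - ρ ^ 2 * ‖μ - l‖ ^ 2 =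
    (ρ ^ 2 - ‖l‖ ^ 2) * (ρ ^ 2 - ‖μ‖ ^ 2) := by
  simp only [← Complex.normSq_eq_norm_sq, Complex.normSq_apply]
  simp only [pow_two, Complex.sub_re, Complex.sub_im, Complex.mul_re, Complex.mul_im,
    Complex.conj_re, Complex.conj_im, Complex.ofReal_re, Complex.ofReal_im]
  ring

private theorem h1_main (f : ℂ → ℂ) (hf : Differentiable ℂ f) (ρ : ℝ) (hρ : 0 < ρ)
    (h : ∀ l : ℂ, ‖l‖ ≤ ρ → 0 < (f l).re) (l μ : ℂ) (hl : ‖l‖ < ρ) (hμ : ‖μ‖ < ρ) :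
    ‖f μ - f l‖ * ‖(ρ : ℂ) ^ 2 - conj l * μ‖ ≤ ρ * ‖μ - l‖ * ‖f μ + conj (f l)‖ := by
  have hl0 : 0 < (f l).re := h l hl.le
  have hne : ∀ x : ℂ, ‖x‖ ≤ ρ → f x + conj (f l) ≠ 0 := by
    intro x hx h0
    have h1 := congrArg Complex.re h0
    simp only [Complex.add_re, Complex.conj_re, Complex.zero_re] at h1
    have h2 := h x hx
    linarith
  have hρc : (ρ : ℂ) ≠ 0 := by exact_mod_cast hρ.ne'
  let k : ℂ → ℂ := fun x => dslope f l x * ((ρ : ℂ) ^ 2 - conj l * x) /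
    ((ρ : ℂ) * (f x + conj (f l)))
  have hds : Differentiable ℂ (dslope f l) := by
    have h1 := (Complex.differentiableOn_dslope (f := f) (c := l) (s := Set.univ)
      Filter.univ_mem).2 hf.differentiableOn
    exact differentiableOn_univ.1 h1
  have hk : DifferentiableOn ℂ k (closure (Metric.ball (0 : ℂ) ρ)) := by
    rw [closure_ball (0 : ℂ) hρ.ne']
    intro x hx
    have hx' : ‖x‖ ≤ ρ := by simpa using hx
    apply DifferentiableAt.differentiableWithinAt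
    apply DifferentiableAt.div
    · exact (hds x).mul ((differentiableAt_const _).sub
        ((differentiableAt_const _).mul differentiableAt_id))
    · exact (differentiableAt_const _).mul ((hf x).add (differentiableAt_const _))
    · exact mul_ne_zero hρc (hne x hx')
  have hbd : ∀ x ∈ frontier (Metric.ball (0 : ℂ) ρ), ‖k x‖ ≤ 1 := by
    intro x hx
    rw [frontier_ball (0 : ℂ) hρ.ne'] at hx
    have hx' : ‖x‖ = ρ := by simpa using hx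
    have hxl : x ≠ l := by
      rintro rfl
      linarith
    have hxl' : 0 < ‖x - l‖ := norm_pos_iff.2 (sub_ne_zero.2 hxl)
    have e1 : ‖(ρ : ℂ) ^ 2 - conj l * x‖ = ρ * ‖x - l‖ := by
      have e2 := h1_ker ρ l x
      rw [hx', sub_self, mul_zero] at e2
      have e3 : ‖(ρ : ℂ) ^ 2 - conj l * x‖ ^ 2 = (ρ * ‖x - l‖) ^ 2 := by
        rw [mul_pow]
        linarith
      exact (pow_left_inj₀ (norm_nonneg _) (by positivity) two_ne_zero).1 e3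
    have e4 : ‖f x - f l‖ ≤ ‖f x + conj (f l)‖ := by
      have e5 := h1_sub (f x) (f l)
      have e6 : 0 < (f x).re := h x hx'.le
      have e7 : ‖f x - f l‖ ^ 2 ≤ ‖f x + conj (f l)‖ ^ 2 := by
        have : 0 < 4 * (f x).re * (f l).re := by positivity
        linarith
      exact (pow_le_pow_iff_left₀ (norm_nonneg _) (norm_nonneg _) two_ne_zero).1 e7
    have e8 : 0 < ‖f x + conj (f l)‖ := norm_pos_iff.2 (hne x hx'.le)
    simp only [k]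
    rw [norm_div, norm_mul, norm_mul, dslope_of_ne _ hxl, slope_def_field, norm_div, e1,
      Complex.norm_real, Real.norm_of_nonneg hρ.le, div_le_one (by positivity)]
    have e9 : ‖f x - f l‖ / ‖x - l‖ * (ρ * ‖x - l‖) = ρ * ‖f x - f l‖ := by
      field_simp
    rw [e9]
    exact mul_le_mul_of_nonneg_left e4 hρ.le
  have hmax := Complex.norm_le_of_forall_mem_frontier_norm_le Metric.isBounded_ball
    hk.diffContOnCl hbd (z := μ) (subset_closure (by simpa using hμ))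
  by_cases hml : μ = l
  · rw [hml]
    simp
  have hml' : 0 < ‖μ - l‖ := norm_pos_iff.2 (sub_ne_zero.2 hml)
  have e8 : 0 < ‖f μ + conj (f l)‖ := norm_pos_iff.2 (hne μ hμ.le)
  simp only [k] at hmax
  rw [norm_div, norm_mul, norm_mul, dslope_of_ne _ hml, slope_def_field, norm_div,
    Complex.norm_real, Real.norm_of_nonneg hρ.le, div_le_one (by positivity), div_mul_eq_mul_div,
    div_le_iff₀ hml'] at hmax
  calc ‖f μ - f l‖ * ‖(ρ : ℂ) ^ 2 - conj l * μ‖ ≤ ρ * ‖f μ + conj (f l)‖ * ‖μ - l‖ := hmax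
    _ = ρ * ‖μ - l‖ * ‖f μ + conj (f l)‖ := by ring

/-- (h1, size 3) Harnack in one variable. PROOF. `k μ = dslope f l μ * (ρ ^ 2 - conj l * μ) / (ρ * (f μ + conj (f l)))` is differentiable
on `‖μ‖ ≤ ρ` (the real part of `f μ + conj (f l)` is positive) and `‖k μ‖ ≤ 1` for `‖μ‖ = ρ`, because then `‖ρ ^ 2 - conj l * μ‖ = ρ * ‖μ - l‖` and
`‖f μ - f l‖ ≤ ‖f μ + conj (f l)‖`. Maximum principle (`Complex.norm_le_of_forall_mem_frontier_norm_le`): with `a = f μ`, `b = f l`: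
`‖a - b‖ * ‖ρ ^ 2 - conj l * μ‖ ≤ ρ * ‖μ - l‖ * ‖a + conj b‖`. `‖a + conj b‖ ^ 2 - ‖a - b‖ ^ 2 = 4 * a.re * b.re`,
`‖ρ ^ 2 - conj l * μ‖ ^ 2 - ρ ^ 2 * ‖μ - l‖ ^ 2 = (ρ ^ 2 - ‖l‖ ^ 2) * (ρ ^ 2 - ‖μ‖ ^ 2)`; so `(ρ ^ 2 - ‖l‖ ^ 2) * (ρ ^ 2 - ‖μ‖ ^ 2) * ‖a + conj b‖ ^ 2 ≤
‖ρ ^ 2 - conj l * μ‖ ^ 2 * 4 * a.re * b.re`, and `a.re ≤ ‖a + conj b‖`; divide by `a.re`. -/
theorem harn1 (f : ℂ → ℂ) (hf : Differentiable ℂ f) (ρ : ℝ) (hρ : 0 < ρ)
    (h : ∀ l : ℂ, ‖l‖ ≤ ρ → 0 < (f l).re) (l μ : ℂ) (hl : ‖l‖ < ρ) (hμ : ‖μ‖ < ρ) :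
    (f μ).re * ((ρ ^ 2 - ‖l‖ ^ 2) * (ρ ^ 2 - ‖μ‖ ^ 2)) ≤
      4 * (f l).re * ‖(ρ : ℂ) ^ 2 - conj l * μ‖ ^ 2 := by
  have hstar := h1_main f hf ρ hρ h l μ hl hμ
  have ha : 0 < (f μ).re := h μ hμ.le
  have hb : 0 < (f l).re := h l hl.le
  have e1 := h1_sub (f μ) (f l)
  have e2 := h1_ker ρ l μ
  set P := ‖f μ + conj (f l)‖ with hP
  set M := ‖f μ - f l‖ with hM
  set D := ‖(ρ : ℂ) ^ 2 - conj l * μ‖ with hD
  set N := ‖μ - l‖ with hN
  have hP0 : 0 ≤ P := norm_nonneg _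
  have hM0 : 0 ≤ M := norm_nonneg _
  have hD0 : 0 ≤ D := norm_nonneg _
  have hN0 : 0 ≤ N := norm_nonneg _
  have e3 : (M * D) ^ 2 ≤ (ρ * N * P) ^ 2 :=
    pow_le_pow_left₀ (by positivity) hstar 2
  have e4 : (f μ).re ≤ P := by
    have h1 : (f μ + conj (f l)).re ≤ P := Complex.re_le_norm _
    simp only [Complex.add_re, Complex.conj_re] at h1
    linarith
  have e5 : (f μ).re ^ 2 ≤ P ^ 2 := pow_le_pow_left₀ ha.le e4 2
  have hQ : 0 ≤ (ρ ^ 2 - ‖l‖ ^ 2) * (ρ ^ 2 - ‖μ‖ ^ 2) := by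
    apply mul_nonneg
    · have := pow_le_pow_left₀ (norm_nonneg _) hl.le 2
      linarith
    · have := pow_le_pow_left₀ (norm_nonneg _) hμ.le 2
      linarith
  set Q := (ρ ^ 2 - ‖l‖ ^ 2) * (ρ ^ 2 - ‖μ‖ ^ 2) with hQd
  have e6 : Q * P ^ 2 ≤ D ^ 2 * (4 * (f μ).re * (f l).re) := by
    rw [← e2, ← e1]
    nlinarith [e3]
  have e7 : (f μ).re * ((f μ).re * Q) ≤ (f μ).re * (4 * (f l).re * D ^ 2) := by
    have h1 : (f μ).re ^ 2 * Q ≤ P ^ 2 * Q := mul_le_mul_of_nonneg_right e5 hQ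
    nlinarith [e6, h1]
  exact le_of_mul_le_mul_left e7 ha
-- END h1

-- BEGIN h2
private lemma h2_norm (a b : E n) (hab : inner ℂ b a = 0) (hb : ‖b‖ = 1) (x : ℂ) :
    ‖a + x • b‖ ^ 2 = ‖a‖ ^ 2 + ‖x‖ ^ 2 := by
  have h1 : inner ℂ a (x • b) = (0 : ℂ) := by
    rw [inner_smul_right, ← inner_conj_symm, hab]; simp
  have h2 := norm_add_sq_eq_norm_sq_add_norm_sq_of_inner_eq_zero (𝕜 := ℂ) a (x • b) h1
  rw [pow_two, h2, norm_smul, hb]; ring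

/-- (h2, size 3) Harnack in the ball. PROOF. `z = w` is clear. Otherwise `b = (w - z) / ‖w - z‖`, `l = ⟪b, z⟫`, `μ = ⟪b, w⟫`, `a = z - l • b = w - μ • b`
is orthogonal to `b`, `‖a + x • b‖ ^ 2 = ‖a‖ ^ 2 + ‖x‖ ^ 2`; `harn1` for `f x = ev p (a + x • b)`, `ρ = √(R ^ 2 - ‖a‖ ^ 2)`;
`⟪z, w⟫ = ‖a‖ ^ 2 + conj l * μ`. -/
theorem harn (p : MvPolynomial (Fin n) ℂ) (R : ℝ) (h : ∀ z : E n, ‖z‖ ≤ R → 0 < (ev p z).re)
    (z w : E n) (hz : ‖z‖ < R) (hw : ‖w‖ < R) :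
    (ev p w).re * ((R ^ 2 - ‖z‖ ^ 2) * (R ^ 2 - ‖w‖ ^ 2)) ≤
      4 * (ev p z).re * ‖(R : ℂ) ^ 2 - inner ℂ z w‖ ^ 2 := by
  have hR : 0 < R := lt_of_le_of_lt (norm_nonneg z) hz
  by_cases hzw : z = w
  · subst hzw
    have hp : 0 < (ev p z).re := h z hz.le
    have e1 : (R : ℂ) ^ 2 - inner ℂ z z = ((R ^ 2 - ‖z‖ ^ 2 : ℝ) : ℂ) := by
      rw [inner_self_eq_norm_sq_to_K]; push_cast; rfl
    rw [e1, Complex.norm_real, Real.norm_eq_abs, sq_abs]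
    have : 0 ≤ (ev p z).re * (R ^ 2 - ‖z‖ ^ 2) ^ 2 := by positivity
    nlinarith
  · set c : ℝ := ‖w - z‖ with hc
    have hc0 : 0 < c := norm_pos_iff.mpr (sub_ne_zero.mpr (Ne.symm hzw))
    obtain ⟨b, hb1, hwz⟩ : ∃ b : E n, ‖b‖ = 1 ∧ w - z = ((c : ℝ) : ℂ) • b := by
      refine ⟨((c⁻¹ : ℝ) : ℂ) • (w - z), ?_, ?_⟩
      · rw [norm_smul, Complex.norm_real, Real.norm_eq_abs, abs_of_pos (inv_pos.mpr hc0), ← hc]
        exact inv_mul_cancel₀ hc0.ne'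
      · rw [smul_smul, ← Complex.ofReal_mul, mul_inv_cancel₀ hc0.ne']; simp
    have hbb : inner ℂ b b = (1 : ℂ) := by
      rw [inner_self_eq_norm_sq_to_K, hb1]; simp
    set l : ℂ := inner ℂ b z with hl
    set μ : ℂ := inner ℂ b w with hμ
    have hμl : μ - l = (c : ℂ) := by
      rw [hμ, hl, ← inner_sub_right, hwz, inner_smul_right, hbb, mul_one]
    set a : E n := z - l • b with ha
    have haz : z = a + l • b := by rw [ha]; abel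
    have haw : w = a + μ • b := by
      have e : μ = l + (c : ℂ) := by rw [← hμl]; ring
      have e2 : w = z + (c : ℂ) • b := by rw [← hwz]; abel
      rw [e, add_smul, ha, e2]; abel
    have hab : inner ℂ b a = (0 : ℂ) := by
      rw [ha, inner_sub_right, inner_smul_right, hbb, mul_one, ← hl, sub_self]
    have hN := h2_norm a b hab hb1
    have hz2 : ‖z‖ ^ 2 = ‖a‖ ^ 2 + ‖l‖ ^ 2 := by
      have := hN l; rwa [← haz] at this
    have hw2 : ‖w‖ ^ 2 = ‖a‖ ^ 2 + ‖μ‖ ^ 2 := by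
      have := hN μ; rwa [← haw] at this
    have hzR : ‖z‖ ^ 2 < R ^ 2 := by
      have := norm_nonneg z; nlinarith
    have hwR : ‖w‖ ^ 2 < R ^ 2 := by
      have := norm_nonneg w; nlinarith
    have hpos : 0 < R ^ 2 - ‖a‖ ^ 2 := by
      have := sq_nonneg ‖l‖; nlinarith
    set ρ : ℝ := Real.sqrt (R ^ 2 - ‖a‖ ^ 2) with hρ
    have hρ2 : ρ ^ 2 = R ^ 2 - ‖a‖ ^ 2 := Real.sq_sqrt hpos.le
    have hρ0 : 0 < ρ := Real.sqrt_pos.mpr hpos
    have hf : Differentiable ℂ (fun x : ℂ => ev p (a + x • b)) :=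
      (ev_diff p).comp ((differentiable_const a).add (differentiable_id.smul_const b))
    have hfp : ∀ x : ℂ, ‖x‖ ≤ ρ → 0 < (ev p (a + x • b)).re := by
      intro x hx
      apply h
      have h1 : ‖a + x • b‖ ^ 2 ≤ R ^ 2 := by
        rw [hN x]
        have : ‖x‖ ^ 2 ≤ ρ ^ 2 := pow_le_pow_left₀ (norm_nonneg x) hx 2
        linarith
      exact (sq_le_sq₀ (norm_nonneg _) hR.le).mp h1
    have hlρ : ‖l‖ < ρ := by
      have h1 : ‖l‖ ^ 2 < ρ ^ 2 := by linarith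
      exact (sq_lt_sq₀ (norm_nonneg _) hρ0.le).mp h1
    have hμρ : ‖μ‖ < ρ := by
      have h1 : ‖μ‖ ^ 2 < ρ ^ 2 := by linarith
      exact (sq_lt_sq₀ (norm_nonneg _) hρ0.le).mp h1
    have key := harn1 (fun x : ℂ => ev p (a + x • b)) hf ρ hρ0 hfp l μ hlρ hμρ
    simp only [← haz, ← haw] at key
    have e3 : inner ℂ z w = ((‖a‖ ^ 2 : ℝ) : ℂ) + conj l * μ := by
      have hab' : inner ℂ a b = (0 : ℂ) := by rw [← inner_conj_symm, hab]; simp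
      have haa : inner ℂ a a = ((‖a‖ ^ 2 : ℝ) : ℂ) := by
        rw [inner_self_eq_norm_sq_to_K]; push_cast; rfl
      have : inner ℂ (a + l • b) (a + μ • b) = ((‖a‖ ^ 2 : ℝ) : ℂ) + conj l * μ := by
        simp only [inner_add_left, inner_add_right, inner_smul_right, inner_smul_left, hab', hab,
          haa, hbb]
        ring
      rw [← haz, ← haw] at this
      exact this
    have e4 : (R : ℂ) ^ 2 - inner ℂ z w = (ρ : ℂ) ^ 2 - conj l * μ := by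
      rw [e3]
      have : (ρ : ℂ) ^ 2 = ((R ^ 2 - ‖a‖ ^ 2 : ℝ) : ℂ) := by rw [← hρ2]; push_cast; rfl
      rw [this]; push_cast; ring
    rw [e4]
    have e5 : R ^ 2 - ‖z‖ ^ 2 = ρ ^ 2 - ‖l‖ ^ 2 := by rw [hρ2, hz2]; ring
    have e6 : R ^ 2 - ‖w‖ ^ 2 = ρ ^ 2 - ‖μ‖ ^ 2 := by rw [hρ2, hw2]; ring
    rw [e5, e6]
    exact key
-- END h2

-- BEGIN h3
/-- (h3, size 2) PROOF. `harn` with `R = 1 + 1 / m`, `w = ζ`: `R ^ 2 - ‖z‖ ^ 2 ≥ 1 / m`, `R ^ 2 - 1 ≥ 2 / m`, and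
`‖R ^ 2 - ⟪z, ζ⟫‖ ≤ ‖1 - ⟪z, ζ⟫‖ + (R ^ 2 - 1) ≤ (x + 3) / m`, `x = m * ‖1 - ⟪ζ, z⟫‖` (the norm of the conjugate is the same). -/
theorem harn_m (p : MvPolynomial (Fin n) ℂ) (m : ℕ) (hm : 1 ≤ m)
    (h : ∀ z : E n, ‖z‖ ≤ 1 + 1 / m → 0 < (ev p z).re) (z ζ : E n)
    (hz : ‖z‖ ≤ 1 + 1 / (2 * m)) (hζ : ‖ζ‖ = 1) :
    (ev p ζ).re ≤ 2 * (ev p z).re * (3 + m * ‖1 - inner ℂ ζ z‖) ^ 2 := by
  have hm0 : (1 : ℝ) ≤ m := by exact_mod_cast hm
  have hmp : (0 : ℝ) < m := by linarith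
  set R : ℝ := 1 + 1 / m with hR
  have hu : 0 < 1 / (m : ℝ) := by positivity
  have hu1 : 1 / (m : ℝ) ≤ 1 := by rw [div_le_one hmp]; exact hm0
  have hhalf : 1 / (2 * (m : ℝ)) = 1 / (m : ℝ) / 2 := by rw [div_div, mul_comm]
  rw [hhalf] at hz
  set u : ℝ := 1 / (m : ℝ) with hudef
  have hzR : ‖z‖ < R := by rw [hR]; linarith
  have hζR : ‖ζ‖ < R := by rw [hζ, hR]; linarith
  have h1 := harn p R h z ζ hzR hζR
  have hv : 0 < (ev p z).re := h z hzR.le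
  have hvζ : 0 < (ev p ζ).re := h ζ hζR.le
  rw [hζ] at h1
  have hnz := norm_nonneg z
  have hA : u ≤ R ^ 2 - ‖z‖ ^ 2 := by
    rw [hR]
    nlinarith
  have hB : 2 * u ≤ R ^ 2 - 1 ^ 2 := by rw [hR]; nlinarith
  have hC : R ^ 2 - 1 ≤ 3 * u := by rw [hR]; nlinarith
  have hsym : ‖(1 : ℂ) - inner ℂ z ζ‖ = ‖(1 : ℂ) - inner ℂ ζ z‖ := by
    rw [← RCLike.norm_conj ((1 : ℂ) - inner ℂ ζ z), map_sub, map_one, inner_conj_symm]
  have hD : ‖(R : ℂ) ^ 2 - inner ℂ z ζ‖ ≤ ‖(1 : ℂ) - inner ℂ ζ z‖ + 3 * u := by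
    have e : (R : ℂ) ^ 2 - inner ℂ z ζ = ((1 : ℂ) - inner ℂ z ζ) + ((R ^ 2 - 1 : ℝ) : ℂ) := by
      push_cast
      ring
    rw [e]
    refine (norm_add_le _ _).trans ?_
    rw [hsym]
    have : ‖((R ^ 2 - 1 : ℝ) : ℂ)‖ ≤ 3 * u := by
      rw [Complex.norm_real, Real.norm_eq_abs, abs_of_nonneg (by nlinarith)]
      exact hC
    linarith
  set x : ℝ := ‖(1 : ℂ) - inner ℂ ζ z‖ with hx
  have hx0 : 0 ≤ x := norm_nonneg _
  have hmu : (m : ℝ) * u = 1 := by rw [hudef]; field_simp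
  have hE : ‖(R : ℂ) ^ 2 - inner ℂ z ζ‖ ^ 2 ≤ (x + 3 * u) ^ 2 :=
    pow_le_pow_left₀ (norm_nonneg _) hD 2
  have h2 : (ev p ζ).re * (u * (2 * u)) ≤ 4 * (ev p z).re * (x + 3 * u) ^ 2 := by
    calc (ev p ζ).re * (u * (2 * u)) ≤ (ev p ζ).re * ((R ^ 2 - ‖z‖ ^ 2) * (R ^ 2 - 1 ^ 2)) := by
          apply mul_le_mul_of_nonneg_left _ hvζ.le
          exact mul_le_mul hA hB (by positivity) (by linarith)
      _ ≤ 4 * (ev p z).re * ‖(R : ℂ) ^ 2 - inner ℂ z ζ‖ ^ 2 := h1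
      _ ≤ 4 * (ev p z).re * (x + 3 * u) ^ 2 := by
          apply mul_le_mul_of_nonneg_left hE (by positivity)
  have h3 : (ev p ζ).re = (ev p ζ).re * (u * (2 * u)) * ((m : ℝ) ^ 2 / 2) := by
    have : u * (2 * u) * ((m : ℝ) ^ 2 / 2) = ((m : ℝ) * u) ^ 2 := by ring
    rw [mul_assoc, this, hmu]
    ring
  rw [h3]
  calc (ev p ζ).re * (u * (2 * u)) * ((m : ℝ) ^ 2 / 2) ≤
      4 * (ev p z).re * (x + 3 * u) ^ 2 * ((m : ℝ) ^ 2 / 2) :=
        mul_le_mul_of_nonneg_right h2 (by positivity)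
    _ = 2 * (ev p z).re * (m * x + 3 * ((m : ℝ) * u)) ^ 2 := by ring
    _ = 2 * (ev p z).re * (3 + m * x) ^ 2 := by rw [hmu]; ring
-- END h3

-- BEGIN h4
/-- (h4, size 1) PROOF. `harn` with `z = 0`, `R = 1 + 1 / m ≤ 2`: `(ev p w).re * (R ^ 2 * (R ^ 2 - 1)) ≤ 4 * R ^ 4`, `R ^ 2 - 1 ≥ 2 / m`. -/
theorem harn_0 (p : MvPolynomial (Fin n) ℂ) (m : ℕ) (hm : 1 ≤ m)
    (h : ∀ z : E n, ‖z‖ ≤ 1 + 1 / m → 0 < (ev p z).re) (h0 : ev p 0 = 1) (w : E n) (hw : ‖w‖ = 1) :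
    (ev p w).re ≤ 8 * m := by
  have hm0 : (1 : ℝ) ≤ m := by exact_mod_cast hm
  have hmp : (0 : ℝ) < m := by linarith
  set R : ℝ := 1 + 1 / m with hR
  have hi : 0 < 1 / (m : ℝ) := by positivity
  have hi1 : 1 / (m : ℝ) ≤ 1 := by
    rw [div_le_one hmp]; exact hm0
  have hR1 : 1 < R := by linarith
  have hR2 : R ≤ 2 := by linarith
  have hz : ‖(0 : E n)‖ < R := by rw [norm_zero]; linarith
  have hw' : ‖w‖ < R := by rw [hw]; exact hR1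
  have key := harn p R h 0 w hz hw'
  rw [h0, hw, norm_zero, inner_zero_left, sub_zero] at key
  have hn : ‖((R : ℂ) ^ 2)‖ ^ 2 = R ^ 4 := by
    rw [norm_pow, Complex.norm_real, Real.norm_eq_abs, sq_abs]
    ring
  rw [hn, Complex.one_re] at key
  have e1 : (R ^ 2 - 0 ^ 2) * (R ^ 2 - 1 ^ 2) = R ^ 2 * (R ^ 2 - 1) := by ring
  rw [e1] at key
  have hg : 2 * (1 / (m : ℝ)) ≤ R ^ 2 - 1 := by
    have : R ^ 2 - 1 = 2 * (1 / (m : ℝ)) + (1 / (m : ℝ)) ^ 2 := by rw [hR]; ring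
    rw [this]
    nlinarith [sq_nonneg (1 / (m : ℝ))]
  have hR0 : 0 < R ^ 2 := by positivity
  have k2 : (ev p w).re * (R ^ 2 - 1) ≤ 4 * R ^ 2 := by
    have : R ^ 2 * ((ev p w).re * (R ^ 2 - 1)) ≤ R ^ 2 * (4 * R ^ 2) := by
      calc R ^ 2 * ((ev p w).re * (R ^ 2 - 1)) = (ev p w).re * (R ^ 2 * (R ^ 2 - 1)) := by ring
        _ ≤ 4 * 1 * R ^ 4 := key
        _ = R ^ 2 * (4 * R ^ 2) := by ring
    exact le_of_mul_le_mul_left this hR0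
  rcases le_or_gt (ev p w).re 0 with hneg | hpos
  · exact hneg.trans (by positivity)
  · have k3 : (ev p w).re * (2 * (1 / (m : ℝ))) ≤ 16 := by
      calc (ev p w).re * (2 * (1 / (m : ℝ))) ≤ (ev p w).re * (R ^ 2 - 1) :=
            mul_le_mul_of_nonneg_left hg hpos.le
        _ ≤ 4 * R ^ 2 := k2
        _ ≤ 16 := by nlinarith
    have k4 : (ev p w).re = (ev p w).re * (2 * (1 / (m : ℝ))) * (m / 2) := by
      field_simp
    rw [k4]
    calc (ev p w).re * (2 * (1 / (m : ℝ))) * (m / 2) ≤ 16 * (m / 2) :=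
          mul_le_mul_of_nonneg_right k3 (by positivity)
      _ = 8 * m := by ring
-- END h4

end Pool.Agent.Sph
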