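import Pool.Agent.Sph.Defs

/-! The peak function, and the function `x log x`. Text, (K). -/

set_option autoImplicit false

namespace Pool.Agent.Sph

open MeasureTheory ComplexConjugate

-- BEGIN k1
/-- (k1, size 2) PROOF. `X = ‖∑ l ^ k‖ / m`: `X ≤ (1 + 1 / (2 * m)) ^ m ≤ exp (1 / 2)` and `m * ‖1 - l‖ * X = ‖1 - l ^ m‖ ≤ 1 + exp (1 / 2)`, so
`(1 + m * ‖1 - l‖) * X ≤ 1 + 2 * exp (1 / 2) ≤ 5`; `‖l‖ ≤ 3 / 2`. -/
theorem ker_le (m L : ℕ) (hm : 1 ≤ m) (l : ℂ) (hl : ‖l‖ ≤ 1 + 1 / (2 * m)) :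
    ‖ker m L l‖ * (1 + m * ‖1 - l‖) ^ L ≤ 3 / 2 * 5 ^ L := by
  have hm0 : (0 : ℝ) < m := by exact_mod_cast hm
  have hm1 : (1 : ℝ) ≤ m := by exact_mod_cast hm
  have hl2 : ‖l‖ ≤ 3 / 2 := by
    have h1 : 1 / (2 * (m : ℝ)) ≤ 1 / 2 := by
      rw [div_le_div_iff₀ (by positivity) (by norm_num)]
      linarith
    linarith
  have hb1 : (1 : ℝ) ≤ 1 + 1 / (2 * m) := by
    have : (0 : ℝ) ≤ 1 / (2 * m) := by positivity
    linarith
  have hpow : (1 + 1 / (2 * (m : ℝ))) ^ m ≤ 2 := by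
    have h1 : 1 + 1 / (2 * (m : ℝ)) ≤ Real.exp (1 / (2 * m)) := by
      have := Real.add_one_le_exp (1 / (2 * (m : ℝ)))
      linarith
    have h2 : (1 + 1 / (2 * (m : ℝ))) ^ m ≤ Real.exp (1 / (2 * m)) ^ m :=
      pow_le_pow_left₀ (by positivity) h1 m
    have h3 : Real.exp (1 / (2 * (m : ℝ))) ^ m = Real.exp (1 / 2) := by
      rw [← Real.exp_nat_mul]
      congr 1
      field_simp
    have h4 : Real.exp (1 / 2) ≤ 2 := by
      have h5 : Real.exp (1 / 2) ^ 2 = Real.exp 1 := by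
        rw [← Real.exp_nat_mul]
        norm_num
      have h6 : Real.exp 1 < 4 := by
        have := Real.exp_one_lt_d9
        linarith
      nlinarith [Real.exp_pos (1 / 2)]
    linarith
  have hlk : ∀ k ≤ m, ‖l‖ ^ k ≤ 2 := by
    intro k hk
    calc ‖l‖ ^ k ≤ (1 + 1 / (2 * (m : ℝ))) ^ k := pow_le_pow_left₀ (norm_nonneg _) hl k
      _ ≤ (1 + 1 / (2 * (m : ℝ))) ^ m := pow_le_pow_right₀ hb1 hk
      _ ≤ 2 := hpow
  set S : ℂ := ∑ k ∈ Finset.range m, l ^ k with hS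
  have hS1 : ‖S‖ ≤ 2 * m := by
    calc ‖S‖ ≤ ∑ k ∈ Finset.range m, ‖l ^ k‖ := norm_sum_le _ _
      _ ≤ ∑ k ∈ Finset.range m, (2 : ℝ) := Finset.sum_le_sum fun k hk => by
          rw [norm_pow]
          exact hlk k (Finset.mem_range.1 hk).le
      _ = 2 * m := by
          rw [Finset.sum_const, Finset.card_range, nsmul_eq_mul, mul_comm]
  have hS2 : ‖1 - l‖ * ‖S‖ ≤ 3 := by
    have h1 : (1 - l) * S = 1 - l ^ m := by
      rw [hS, mul_comm]
      exact geom_sum_mul_neg l m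
    rw [← norm_mul, h1]
    calc ‖1 - l ^ m‖ ≤ ‖(1 : ℂ)‖ + ‖l ^ m‖ := norm_sub_le _ _
      _ ≤ 1 + 2 := by
          rw [norm_one, norm_pow]
          have := hlk m le_rfl
          linarith
      _ = 3 := by norm_num
  have hX : ‖S / (m : ℂ)‖ * (1 + m * ‖1 - l‖) ≤ 5 := by
    rw [norm_div, Complex.norm_natCast]
    have h1 : ‖S‖ / m * (1 + m * ‖1 - l‖) = ‖S‖ / m + ‖1 - l‖ * ‖S‖ := by
      field_simp
    have h2 : ‖S‖ / m ≤ 2 := by
      rw [div_le_iff₀ hm0]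
      exact hS1
    rw [h1]
    linarith
  have hX0 : 0 ≤ ‖S / (m : ℂ)‖ * (1 + m * ‖1 - l‖) := by positivity
  have h1 : ‖ker m L l‖ * (1 + m * ‖1 - l‖) ^ L =
      ‖l‖ * (‖S / (m : ℂ)‖ * (1 + m * ‖1 - l‖)) ^ L := by
    rw [ker, norm_mul, norm_pow, mul_pow, ← hS]
    ring
  rw [h1]
  exact mul_le_mul hl2 (pow_le_pow_left₀ hX0 hX L) (pow_nonneg hX0 L) (by norm_num)
-- END k1

-- BEGIN k2
private theorem k2_pow (l : ℂ) (hl : ‖l‖ ≤ 1) (k : ℕ) : ‖l ^ k - 1‖ ≤ k * ‖1 - l‖ := by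
  induction k with
  | zero => simp
  | succ k ih =>
    have e : l ^ (k + 1) - 1 = l * (l ^ k - 1) - (1 - l) := by ring
    rw [e]
    calc ‖l * (l ^ k - 1) - (1 - l)‖ ≤ ‖l * (l ^ k - 1)‖ + ‖1 - l‖ := norm_sub_le _ _
      _ ≤ 1 * ‖l ^ k - 1‖ + ‖1 - l‖ := by
          rw [norm_mul]; gcongr
      _ ≤ 1 * (k * ‖1 - l‖) + ‖1 - l‖ := by gcongr
      _ = ((k + 1 : ℕ) : ℝ) * ‖1 - l‖ := by push_cast; ring

private theorem k2_pw (q : ℂ) (d : ℝ) (hd : 0 ≤ d) (h : ‖q - 1‖ ≤ d) (N : ℕ) :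
    ‖q ^ N - 1‖ ≤ (1 + d) ^ N - 1 := by
  have hq : ‖q‖ ≤ 1 + d := by
    calc ‖q‖ = ‖1 + (q - 1)‖ := by congr 1; ring
      _ ≤ ‖(1 : ℂ)‖ + ‖q - 1‖ := norm_add_le _ _
      _ ≤ 1 + d := by rw [norm_one]; gcongr
  induction N with
  | zero => simp
  | succ N ih =>
    have e : q ^ (N + 1) - 1 = q * (q ^ N - 1) + (q - 1) := by ring
    rw [e]
    calc ‖q * (q ^ N - 1) + (q - 1)‖ ≤ ‖q * (q ^ N - 1)‖ + ‖q - 1‖ := norm_add_le _ _
      _ ≤ (1 + d) * ((1 + d) ^ N - 1) + d := by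
          rw [norm_mul]
          gcongr
      _ = (1 + d) ^ (N + 1) - 1 := by ring

private theorem k2_exp (L : ℕ) : (1 + 1 / (3 * ((L : ℝ) + 1))) ^ (L + 1) ≤ 3 / 2 := by
  have hL : (0 : ℝ) < (L : ℝ) + 1 := by positivity
  have h1 : (1 + 1 / (3 * ((L : ℝ) + 1))) ≤ Real.exp (1 / (3 * ((L : ℝ) + 1))) := by
    have := Real.add_one_le_exp (1 / (3 * ((L : ℝ) + 1)))
    linarith
  have h2 : (1 + 1 / (3 * ((L : ℝ) + 1))) ^ (L + 1) ≤ Real.exp (1 / 3) := by
    calc (1 + 1 / (3 * ((L : ℝ) + 1))) ^ (L + 1) ≤ Real.exp (1 / (3 * ((L : ℝ) + 1))) ^ (L + 1) := by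
          gcongr
      _ = Real.exp (1 / 3) := by
          rw [← Real.exp_nat_mul]
          congr 1
          push_cast
          field_simp
  refine h2.trans ?_
  have h3 : Real.exp (1 / 3) ^ 3 ≤ (3 / 2 : ℝ) ^ 3 := by
    rw [← Real.exp_nat_mul]
    have : ((3 : ℕ) : ℝ) * (1 / 3) = 1 := by norm_num
    rw [this]
    have := Real.exp_one_lt_d9
    norm_num at this ⊢
    linarith
  exact le_of_pow_le_pow_left₀ (by norm_num) (by norm_num) h3

/-- (k2, size 2) PROOF. `‖l ^ k - 1‖ ≤ k * ‖1 - l‖ ≤ 1 / (3 * (L + 1))` for `k ≤ m`, so the `L + 1` factors of `ker m L l` differ from `1` by at most `1 / (3 * (L + 1))` and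
`‖ker m L l - 1‖ ≤ (1 + 1 / (3 * (L + 1))) ^ (L + 1) - 1 ≤ exp (1 / 3) - 1 ≤ 1 / 2`. -/
theorem ker_re (m L : ℕ) (hm : 1 ≤ m) (l : ℂ) (hl : ‖l‖ ≤ 1)
    (h : m * ‖1 - l‖ ≤ 1 / (3 * (L + 1))) : 1 / 2 ≤ (ker m L l).re := by
  set d : ℝ := 1 / (3 * ((L : ℝ) + 1)) with hd
  have hd0 : 0 ≤ d := by positivity
  have hm' : (1 : ℝ) ≤ m := by exact_mod_cast hm
  have hmc : (m : ℂ) ≠ 0 := by exact_mod_cast (by omega : m ≠ 0)
  have hl1 : ‖l - 1‖ ≤ d := by
    rw [norm_sub_rev]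
    calc ‖1 - l‖ = 1 * ‖1 - l‖ := (one_mul _).symm
      _ ≤ m * ‖1 - l‖ := by gcongr
      _ ≤ d := h
  have hq : ‖(∑ k ∈ Finset.range m, l ^ k) / m - 1‖ ≤ d := by
    have e : (∑ k ∈ Finset.range m, l ^ k) / (m : ℂ) - 1 =
        (∑ k ∈ Finset.range m, (l ^ k - 1)) / m := by
      rw [Finset.sum_sub_distrib]
      simp only [Finset.sum_const, Finset.card_range, nsmul_eq_mul, mul_one]
      field_simp
    rw [e, norm_div, Complex.norm_natCast, div_le_iff₀ (by positivity)]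
    calc ‖∑ k ∈ Finset.range m, (l ^ k - 1)‖ ≤ ∑ k ∈ Finset.range m, ‖l ^ k - 1‖ := norm_sum_le _ _
      _ ≤ ∑ _k ∈ Finset.range m, d := by
          apply Finset.sum_le_sum
          intro k hk
          have hk' : (k : ℝ) ≤ m := by exact_mod_cast (Finset.mem_range.1 hk).le
          calc ‖l ^ k - 1‖ ≤ k * ‖1 - l‖ := k2_pow l hl k
            _ ≤ m * ‖1 - l‖ := by gcongr
            _ ≤ d := h
      _ = d * m := by simp [mul_comm]
  have hq2 := k2_pw _ d hd0 hq L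
  have hk : ‖ker m L l - 1‖ ≤ 1 / 2 := by
    have e : ker m L l - 1 = l * (((∑ k ∈ Finset.range m, l ^ k) / m) ^ L - 1) + (l - 1) := by
      unfold ker; ring
    rw [e]
    calc ‖l * (((∑ k ∈ Finset.range m, l ^ k) / m) ^ L - 1) + (l - 1)‖
        ≤ ‖l * (((∑ k ∈ Finset.range m, l ^ k) / m) ^ L - 1)‖ + ‖l - 1‖ := norm_add_le _ _
      _ ≤ 1 * ((1 + d) ^ L - 1) + d := by
          rw [norm_mul]
          gcongr
      _ ≤ (1 + d) * ((1 + d) ^ L - 1) + d := by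
          have h0 : 0 ≤ (1 + d) ^ L - 1 := by
            have : (1 : ℝ) ≤ (1 + d) ^ L := one_le_pow₀ (by linarith)
            linarith
          nlinarith
      _ = (1 + d) ^ (L + 1) - 1 := by ring
      _ ≤ 1 / 2 := by
          have := k2_exp L
          rw [← hd] at this
          linarith
  have hre : |(ker m L l - 1).re| ≤ 1 / 2 := (Complex.abs_re_le_norm _).trans hk
  rw [abs_le] at hre
  have := hre.1
  simp only [Complex.sub_re, Complex.one_re] at this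
  linarith
-- END k2

-- BEGIN k3
private theorem k3_aux (u : ℝ) (h1 : -(1 / 2) ≤ u) (h2 : u ≤ 1 / 2) :
    u ^ 2 / 3 ≤ (1 + u) * Real.log (1 + u) - u := by
  set g : ℝ → ℝ := fun x => (1 + x) * Real.log (1 + x) - x - x ^ 2 / 3 with hg
  have hder : ∀ x : ℝ, -1 < x → HasDerivAt g (Real.log (1 + x) - 2 * x / 3) x := by
    intro x hx
    have hx1 : (1 + x) ≠ 0 := by linarith
    have e1 : HasDerivAt (fun x : ℝ => 1 + x) 1 x := by
      simpa using (hasDerivAt_id x).const_add (1 : ℝ)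
    have e2 : HasDerivAt (fun x : ℝ => Real.log (1 + x)) (1 / (1 + x)) x := e1.log hx1
    have e3 := (e1.mul e2).sub (hasDerivAt_id x)
    have e4 : HasDerivAt (fun x : ℝ => x ^ 2 / 3) (2 * x / 3) x := by
      have := ((hasDerivAt_id x).pow 2).div_const 3
      simpa using this
    have e5 := e3.sub e4
    refine (e5.congr_deriv ?_)
    field_simp
    ring
  have hcont : ContinuousOn g (Set.Icc (-(1 / 2)) (1 / 2)) := fun x hx =>
    (hder x (by linarith [hx.1])).continuousAt.continuousWithinAt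
  have hg0 : g 0 = 0 := by simp [hg]
  have hmain : 0 ≤ g u := by
    rcases le_total 0 u with hu | hu
    · have hmono : MonotoneOn g (Set.Icc 0 (1 / 2)) := by
        apply monotoneOn_of_deriv_nonneg (convex_Icc _ _)
        · exact hcont.mono (Set.Icc_subset_Icc (by norm_num) le_rfl)
        · intro x hx
          rw [interior_Icc] at hx
          exact (hder x (by linarith [hx.1])).differentiableAt.differentiableWithinAt
        · intro x hx
          rw [interior_Icc] at hx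
          rw [(hder x (by linarith [hx.1])).deriv]
          have h3 := Real.one_sub_inv_le_log_of_pos (x := 1 + x) (by linarith [hx.1])
          have h4 : 2 * x / 3 ≤ 1 - (1 + x)⁻¹ := by
            have hx1 : 0 < 1 + x := by linarith [hx.1]
            have h5 : 1 - (1 + x)⁻¹ = x / (1 + x) := by field_simp; ring
            rw [h5, le_div_iff₀ hx1]
            nlinarith [hx.1, hx.2]
          linarith
      have := hmono (Set.left_mem_Icc.2 (by norm_num)) ⟨hu, h2⟩ hu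
      rwa [hg0] at this
    · have hanti : AntitoneOn g (Set.Icc (-(1 / 2)) 0) := by
        apply antitoneOn_of_deriv_nonpos (convex_Icc _ _)
        · exact hcont.mono (Set.Icc_subset_Icc le_rfl (by norm_num))
        · intro x hx
          rw [interior_Icc] at hx
          exact (hder x (by linarith [hx.1])).differentiableAt.differentiableWithinAt
        · intro x hx
          rw [interior_Icc] at hx
          rw [(hder x (by linarith [hx.1])).deriv]
          have h3 := Real.log_le_sub_one_of_pos (x := 1 + x) (by linarith [hx.1])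
          linarith [hx.2]
      have := hanti ⟨h1, hu⟩ (Set.right_mem_Icc.2 (by norm_num)) hu
      rwa [hg0] at this
  simp only [hg] at hmain
  linarith

/-- (k3, size 2) PROOF. With `w = x * u`, `|u| ≤ 1 / 2`, it is `u ^ 2 / 3 ≤ (1 + u) * log (1 + u) - u`: the derivative of the difference is `log (1 + u) - 2 * u / 3`, which has
the sign of `u` on `[-1 / 2, 1 / 2]` (e.g. `log (1 + u) ≥ u / (1 + u) ≥ 2 * u / 3` for `u ≥ 0`; `log (1 + u) ≤ u ≤ 2 * u / 3` for `u ≤ 0`). -/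
theorem phi_ineq (x w : ℝ) (hx : 0 < x) (hw : |w| ≤ x / 2) :
    phi x + (1 + Real.log x) * w + w ^ 2 / (3 * x) ≤ phi (x + w) := by
  obtain ⟨h1, h2⟩ := abs_le.1 hw
  set u : ℝ := w / x with hu
  have hwx : w = x * u := by rw [hu]; field_simp
  have hu1 : -(1 / 2) ≤ u := by rw [hu, le_div_iff₀ hx]; linarith
  have hu2 : u ≤ 1 / 2 := by rw [hu, div_le_iff₀ hx]; linarith
  have h3 := k3_aux u hu1 hu2
  have hpos : 0 < 1 + u := by linarith
  unfold phi
  have e1 : x + w = x * (1 + u) := by rw [hwx]; ring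
  rw [e1, Real.log_mul hx.ne' hpos.ne', hwx]
  have e2 : (x * u) ^ 2 / (3 * x) = x * (u ^ 2 / 3) := by field_simp
  rw [e2]
  have h4 := mul_le_mul_of_nonneg_left h3 hx.le
  nlinarith [h4]
-- END k3

end Pool.Agent.Sph
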