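import Pool.Agent.Sph.Stp

/-! The lower bounds. -/

set_option autoImplicit false

namespace Pool.Agent.Sph

open MeasureTheory ComplexConjugate

variable {n : ℕ}

-- BEGIN l1
/-- (l1, size 2) PROOF. `K` = the largest number with `(4 * n + 8) * 2 ^ K ≤ N` (if there is none, `p = 1`: `A ‖p‖ = A 1`, `log (N + 1) ≤ log (4 * n + 9)`). `iter`, `ent`: `A ‖p‖ ≥ 2 / π * c * K * A 1`; and `A ‖p‖ ≥ A re = A 1`
(`A_re`). `N + 1 ≤ (4 * n + 8) * 2 ^ (K + 1)`, so `log (N + 1) ≤ log (4 * n + 8) + (K + 1) * log 2 ≤ C * max 1 K`. -/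
theorem low1 (hn : 1 ≤ n) : ∃ c : ℝ, 0 < c ∧ ∀ N : ℕ, 1 ≤ N →
    ∃ p : MvPolynomial (Fin n) ℂ, ev p 0 = 1 ∧ p.totalDegree ≤ N ∧
      (∀ z : E n, ‖z‖ ≤ 1 → 0 < (ev p z).re) ∧
      c * Real.log (N + 1) * A n (fun _ => 1) ≤ A n (fun z => ‖ev p z‖) := by
  have hA1 : 0 < A n (fun _ => 1) := A_pos
  obtain ⟨δ, hδ⟩ : ∃ δ : ℝ, δ = eta n ^ 2 / 12288 := ⟨_, rfl⟩
  have hδ0 : 0 < δ := by
    rw [hδ]
    have h1 : 0 < eta n := by
      unfold eta CP
      positivity
    positivity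
  obtain ⟨L, hL⟩ : ∃ L : ℕ, L = 4 * n + 8 := ⟨_, rfl⟩
  have hL0 : 0 < L := by omega
  have hl2 : 0 < Real.log 2 := Real.log_pos one_lt_two
  obtain ⟨B, hB⟩ : ∃ B : ℝ, B = Real.log (L + 1) + 2 * Real.log 2 := ⟨_, rfl⟩
  have hLlog : 0 ≤ Real.log ((L : ℝ) + 1) := Real.log_nonneg (by
    have : (0 : ℝ) ≤ L := Nat.cast_nonneg L
    linarith)
  have hB0 : 0 < B := by
    rw [hB]
    linarith
  obtain ⟨d, hd⟩ : ∃ d : ℝ, d = 2 / Real.pi * δ := ⟨_, rfl⟩
  have hd0 : 0 < d := by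
    rw [hd]
    have := Real.pi_pos
    positivity
  have hre : ∀ p : MvPolynomial (Fin n) ℂ, ev p 0 = 1 →
      A n (fun _ => 1) ≤ A n (fun z => ‖ev p z‖) := by
    intro p hp
    have h1 := A_re hn p
    rw [hp, Complex.one_re, one_mul] at h1
    rw [← h1]
    have hc : Continuous (ev p) := (ev_diff p).continuous
    exact A_mono hn _ _ (Complex.continuous_re.comp hc).continuousOn hc.norm.continuousOn
      fun z _ => Complex.re_le_norm _
  refine ⟨min 1 d / B, div_pos (lt_min one_pos hd0) hB0, fun N hN => ?_⟩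
  have hlogN : 0 ≤ Real.log ((N : ℝ) + 1) := Real.log_nonneg (by
    have : (0 : ℝ) ≤ N := Nat.cast_nonneg N
    linarith)
  have hsmall : Real.log ((N : ℝ) + 1) ≤ B → ∀ p : MvPolynomial (Fin n) ℂ, ev p 0 = 1 →
      min 1 d / B * Real.log (N + 1) * A n (fun _ => 1) ≤ A n (fun z => ‖ev p z‖) := by
    intro hlB p hp
    refine le_trans ?_ (hre p hp)
    have h1 : min 1 d / B * Real.log ((N : ℝ) + 1) ≤ 1 := by
      calc min 1 d / B * Real.log ((N : ℝ) + 1) ≤ 1 / B * B :=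
            mul_le_mul (div_le_div_of_nonneg_right (min_le_left _ _) hB0.le) hlB hlogN
              (div_nonneg zero_le_one hB0.le)
        _ = 1 := by
            field_simp
    calc min 1 d / B * Real.log ((N : ℝ) + 1) * A n (fun _ => 1) ≤ 1 * A n (fun _ => 1) :=
          mul_le_mul_of_nonneg_right h1 hA1.le
      _ = A n (fun _ => 1) := one_mul _
  by_cases hNL : N < L
  · have hone : ∀ z : E n, ev (1 : MvPolynomial (Fin n) ℂ) z = 1 := fun z => by
      unfold ev
      exact map_one _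
    refine ⟨1, hone 0, ?_, fun z _ => ?_, hsmall ?_ 1 (hone 0)⟩
    · rw [MvPolynomial.totalDegree_one]
      exact Nat.zero_le _
    · rw [hone z, Complex.one_re]
      exact one_pos
    · rw [hB]
      have h1 : Real.log ((N : ℝ) + 1) ≤ Real.log ((L : ℝ) + 1) := by
        refine Real.log_le_log ?_ ?_
        · have : (0 : ℝ) ≤ N := Nat.cast_nonneg N
          linarith
        · have : (N : ℝ) ≤ L := by exact_mod_cast hNL.le
          linarith
      linarith
  · have hLN : L ≤ N := not_lt.1 hNL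
    obtain ⟨K, hK⟩ : ∃ K : ℕ, K = Nat.log 2 (N / L) := ⟨_, rfl⟩
    have hdiv : N / L ≠ 0 := (Nat.div_pos hLN hL0).ne'
    have hK1 : L * 2 ^ K ≤ N := by
      have h1 : 2 ^ K ≤ N / L := by
        rw [hK]
        exact Nat.pow_log_le_self 2 hdiv
      calc L * 2 ^ K ≤ L * (N / L) := Nat.mul_le_mul_left L h1
        _ ≤ N := Nat.mul_div_le N L
    have hK2 : N + 1 ≤ L * 2 ^ (K + 1) := by
      have h1 : N / L < 2 ^ (K + 1) := by
        rw [hK]
        exact Nat.lt_pow_succ_log_self Nat.one_lt_two _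
      have h2 : N < L * 2 ^ (K + 1) := by
        rw [mul_comm]
        exact (Nat.div_lt_iff_lt_mul hL0).1 h1
      exact h2
    obtain ⟨p, hp0, hpd, hpp, hpe⟩ := iter hn K
    have hpos : ∀ z : E n, ‖z‖ ≤ 1 → 0 < (ev p z).re := fun z hz => hpp z (hz.trans (by
      have : (0 : ℝ) ≤ 1 / ((2 ^ K : ℕ) : ℝ) := by positivity
      linarith))
    refine ⟨p, hp0, hpd.trans (by rw [← hL]; exact hK1), hpos, ?_⟩
    have hlog : Real.log ((N : ℝ) + 1) ≤ Real.log L + (K + 1) * Real.log 2 := by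
      have h1 : ((N : ℝ) + 1) ≤ L * 2 ^ (K + 1) := by exact_mod_cast hK2
      have h2 : Real.log ((L : ℝ) * 2 ^ (K + 1)) = Real.log L + (K + 1) * Real.log 2 := by
        rw [Real.log_mul (by exact_mod_cast hL0.ne') (by positivity), Real.log_pow]
        push_cast
        ring
      rw [← h2]
      refine Real.log_le_log ?_ h1
      have : (0 : ℝ) ≤ N := Nat.cast_nonneg N
      linarith
    have hLL : Real.log (L : ℝ) ≤ Real.log ((L : ℝ) + 1) := by
      refine Real.log_le_log (by exact_mod_cast hL0) ?_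
      linarith
    by_cases hK0 : K = 0
    · refine hsmall ?_ p hp0
      rw [hK0] at hlog
      rw [hB]
      push_cast at hlog
      linarith
    · have hKr : (1 : ℝ) ≤ K := by exact_mod_cast Nat.one_le_iff_ne_zero.2 hK0
      have hlB : Real.log ((N : ℝ) + 1) ≤ K * B := by
        rw [hB]
        nlinarith
      have hent := ent hn p hpos hp0
      rw [← hδ] at hpe
      have hpi := Real.pi_pos
      have h1 : d * K * A n (fun _ => 1) ≤ A n (fun z => ‖ev p z‖) := by
        have h2 : K * δ * A n (fun _ => 1) ≤ Real.pi / 2 * A n (fun z => ‖ev p z‖) :=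
          hpe.trans hent
        have h3 : 2 / Real.pi * (K * δ * A n (fun _ => 1)) ≤
            2 / Real.pi * (Real.pi / 2 * A n (fun z => ‖ev p z‖)) :=
          mul_le_mul_of_nonneg_left h2 (by positivity)
        have h4 : 2 / Real.pi * (Real.pi / 2 * A n (fun z => ‖ev p z‖)) =
            A n (fun z => ‖ev p z‖) := by
          field_simp
        rw [h4] at h3
        rw [hd]
        calc 2 / Real.pi * δ * K * A n (fun _ => 1) =
              2 / Real.pi * (K * δ * A n (fun _ => 1)) := by ring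
          _ ≤ A n (fun z => ‖ev p z‖) := h3
      refine le_trans (mul_le_mul_of_nonneg_right ?_ hA1.le) h1
      calc min 1 d / B * Real.log ((N : ℝ) + 1) ≤ d / B * (K * B) :=
            mul_le_mul (div_le_div_of_nonneg_right (min_le_right _ _) hB0.le) hlB hlogN
              (div_nonneg hd0.le hB0.le)
        _ = d * K := by
            field_simp
-- END l1

-- BEGIN l2
private theorem l2_tan (q x y : ℝ) (hq : 1 < q) (hx : 0 ≤ x) (hy : 0 < y) :
    y ^ q * (1 - q) + y ^ q * q / y * x ≤ x ^ q := by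
  have h1 : 1 + q * (x / y - 1) ≤ (1 + (x / y - 1)) ^ q :=
    one_add_mul_self_le_rpow_one_add (by have := div_nonneg hx hy.le; linarith) hq.le
  have h2 : (1 + (x / y - 1)) = x / y := by ring
  rw [h2, Real.div_rpow hx hy.le, le_div_iff₀ (Real.rpow_pos_of_pos hy q)] at h1
  have h3 : (1 + q * (x / y - 1)) * y ^ q = y ^ q * (1 - q) + y ^ q * q / y * x := by
    field_simp
    ring
  rw [h3] at h1
  exact h1

private theorem l2_pow (q : ℝ) (K : ℕ) (hq : 1 < q) (hq2 : q ≤ 2) (hK : (K : ℝ) * (q - 1) ≤ 1)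
    (v : ℝ) (hv : 0 < v) (hv2 : v ≤ 8 * ((2 ^ K : ℕ) : ℝ)) : v ^ q ≤ 16 * v := by
  have h1 : v ^ q = v ^ (q - 1) * v := by
    rw [← Real.rpow_add_one hv.ne']
    congr 1
    ring
  rw [h1]
  apply mul_le_mul_of_nonneg_right _ hv.le
  have h2 : v ^ (q - 1) ≤ (8 * ((2 ^ K : ℕ) : ℝ)) ^ (q - 1) :=
    Real.rpow_le_rpow hv.le hv2 (by linarith)
  refine h2.trans ?_
  rw [Real.mul_rpow (by norm_num) (by positivity)]
  have h3 : (8 : ℝ) ^ (q - 1) ≤ 8 := by
    calc (8 : ℝ) ^ (q - 1) ≤ (8 : ℝ) ^ (1 : ℝ) :=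
          Real.rpow_le_rpow_of_exponent_le (by norm_num) (by linarith)
      _ = 8 := Real.rpow_one 8
  have h4 : (((2 ^ K : ℕ) : ℝ)) ^ (q - 1) ≤ 2 := by
    have h5 : ((2 ^ K : ℕ) : ℝ) = (2 : ℝ) ^ (K : ℝ) := by
      rw [Real.rpow_natCast]; push_cast; rfl
    rw [h5, ← Real.rpow_mul (by norm_num)]
    calc (2 : ℝ) ^ ((K : ℝ) * (q - 1)) ≤ (2 : ℝ) ^ (1 : ℝ) :=
          Real.rpow_le_rpow_of_exponent_le (by norm_num) hK
      _ = 2 := Real.rpow_one 2
  calc (8 : ℝ) ^ (q - 1) * ((2 ^ K : ℕ) : ℝ) ^ (q - 1) ≤ 8 * 2 :=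
        mul_le_mul h3 h4 (by positivity) (by norm_num)
    _ = 16 := by norm_num

/-- (l2, size 3) PROOF. `K = ⌊1 / (q - 1)⌋₊ ≥ 1`, `p` from `iter`; `harn_0`: `v ≤ 8 * 2 ^ K`, so `v ^ q ≤ (8 * 2 ^ K) ^ (q - 1) * v ≤ 16 * v` and `A (v ^ q) ≤ 16 * A 1` (`A_re`). Jensen (tangent line of `x ^ q` at the mean `y`
of `‖ev p‖`: `x ^ q ≥ y ^ q + q * y ^ (q - 1) * (x - y)`): `A (‖ev p‖ ^ q) ≥ y ^ q * A 1`, `y = A ‖ev p‖ / A 1 ≥ c * K` (`iter`, `ent`) and `≥ 1`, `K ≥ 1 / (2 * (q - 1))`. -/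
theorem low2 (hn : 1 ≤ n) : ∃ c : ℝ, 0 < c ∧ ∀ q : ℝ, 1 < q → q ≤ 2 →
    ∃ p : MvPolynomial (Fin n) ℂ, ev p 0 = 1 ∧
      (∀ z : E n, ‖z‖ ≤ 1 → 0 < (ev p z).re) ∧
      (c / (q - 1)) ^ q * A n (fun z => (ev p z).re ^ q) ≤ A n (fun z => ‖ev p z‖ ^ q) := by
  have heta : 0 < eta n ^ 2 / 12288 := by
    have : 0 < eta n := by unfold eta CP; positivity
    positivity
  have hpi := Real.pi_pos
  refine ⟨eta n ^ 2 / 12288 / (16 * Real.pi), by positivity, fun q hq hq2 => ?_⟩
  have hq0 : 0 < q - 1 := by linarith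
  set K : ℕ := ⌊1 / (q - 1)⌋₊ with hKd
  have hK1 : (K : ℝ) ≤ 1 / (q - 1) := Nat.floor_le (by positivity)
  have hK2 : 1 / (q - 1) < K + 1 := Nat.lt_floor_add_one _
  have hK3 : 1 ≤ K := by
    rw [hKd, Nat.one_le_floor_iff, le_div_iff₀ hq0]
    linarith
  have hK3' : (1 : ℝ) ≤ K := by exact_mod_cast hK3
  have hK4 : (K : ℝ) * (q - 1) ≤ 1 := by
    rwa [le_div_iff₀ hq0] at hK1
  obtain ⟨p, hp0, _, hpp, hpe⟩ := iter (n := n) hn K
  have hpos : ∀ z : E n, ‖z‖ ≤ 1 → 0 < (ev p z).re := fun z hz =>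
    hpp z (hz.trans (by
      have : (0 : ℝ) ≤ 1 / ((2 ^ K : ℕ) : ℝ) := by positivity
      linarith))
  refine ⟨p, hp0, hpos, ?_⟩
  have hc : Continuous (fun z : E n => ev p z) := (ev_diff p).continuous
  have hA1 : 0 < A n (fun _ => 1) := A_pos
  have hre : A n (fun z => (ev p z).re) = A n (fun _ => 1) := by
    rw [A_re hn p, hp0, Complex.one_re, one_mul]
  -- the upper bound
  have hup : A n (fun z => (ev p z).re ^ q) ≤ 16 * A n (fun _ => 1) := by
    have h1 : A n (fun z => (ev p z).re ^ q) ≤ A n (fun z => 16 * (ev p z).re) := by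
      apply A_mono hn
      · exact ((Complex.continuous_re.comp hc).rpow_const (fun _ => Or.inr (by linarith))).continuousOn
      · exact (continuous_const.mul (Complex.continuous_re.comp hc)).continuousOn
      · intro z hz
        exact l2_pow q K hq hq2 hK4 _ (hpos z hz.le)
          (harn_0 p (2 ^ K) Nat.one_le_two_pow hpp hp0 z hz)
    rw [A_mul, hre] at h1
    exact h1
  -- the mean of the norm
  set y : ℝ := A n (fun z => ‖ev p z‖) / A n (fun _ => 1) with hy
  have hyA : A n (fun z => ‖ev p z‖) = y * A n (fun _ => 1) := by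
    rw [hy, div_mul_cancel₀ _ hA1.ne']
  have hy1 : 1 ≤ y := by
    rw [hy, le_div_iff₀ hA1, one_mul, ← hre]
    apply A_mono hn
    · exact (Complex.continuous_re.comp hc).continuousOn
    · exact hc.norm.continuousOn
    · intro z _
      exact Complex.re_le_norm _
  have hy0 : 0 < y := by linarith
  have hy2 : eta n ^ 2 / 12288 / Real.pi / (q - 1) ≤ y := by
    have h1 := hpe.trans (ent hn p hpos hp0)
    rw [hyA] at h1
    have h2 : (K : ℝ) * (eta n ^ 2 / 12288) ≤ Real.pi / 2 * y := by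
      have h3 : (K : ℝ) * (eta n ^ 2 / 12288) * A n (fun _ => 1) ≤
          (Real.pi / 2 * y) * A n (fun _ => 1) := by
        calc _ ≤ _ := h1
          _ = _ := by ring
      exact le_of_mul_le_mul_right h3 hA1
    have h3 : 1 / (q - 1) ≤ 2 * K := by linarith
    have h4 : eta n ^ 2 / 12288 / Real.pi / (q - 1) =
        (1 / (q - 1)) * (eta n ^ 2 / 12288) / Real.pi := by
      field_simp
    rw [h4, div_le_iff₀ hpi]
    calc 1 / (q - 1) * (eta n ^ 2 / 12288) ≤ 2 * K * (eta n ^ 2 / 12288) :=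
          mul_le_mul_of_nonneg_right h3 heta.le
      _ ≤ y * Real.pi := by linarith
  -- the lower bound
  have hlow : y ^ q * A n (fun _ => 1) ≤ A n (fun z => ‖ev p z‖ ^ q) := by
    have h1 : A n (fun z => y ^ q * (1 - q) * 1 + y ^ q * q / y * ‖ev p z‖) ≤
        A n (fun z => ‖ev p z‖ ^ q) := by
      apply A_mono hn
      · exact (continuous_const.add (continuous_const.mul hc.norm)).continuousOn
      · exact (hc.norm.rpow_const (fun _ => Or.inr (by linarith))).continuousOn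
      · intro z _
        rw [mul_one]
        exact l2_tan q _ y hq (norm_nonneg _) hy0
    rw [A_add hn (fun _ => y ^ q * (1 - q) * 1) (fun z => y ^ q * q / y * ‖ev p z‖)
      continuousOn_const (continuous_const.mul hc.norm).continuousOn, A_mul, A_mul, hyA] at h1
    have h2 : y ^ q * (1 - q) * A n (fun _ => 1) + y ^ q * q / y * (y * A n (fun _ => 1)) =
        y ^ q * A n (fun _ => 1) := by
      field_simp
      ring
    rw [h2] at h1
    exact h1
  refine le_trans ?_ hlow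
  have h5 : 0 ≤ eta n ^ 2 / 12288 / (16 * Real.pi) / (q - 1) := by positivity
  calc (eta n ^ 2 / 12288 / (16 * Real.pi) / (q - 1)) ^ q * A n (fun z => (ev p z).re ^ q)
      ≤ (eta n ^ 2 / 12288 / (16 * Real.pi) / (q - 1)) ^ q * (16 * A n (fun _ => 1)) :=
        mul_le_mul_of_nonneg_left hup (Real.rpow_nonneg h5 q)
    _ = ((eta n ^ 2 / 12288 / (16 * Real.pi) / (q - 1)) ^ q * 16) * A n (fun _ => 1) := by ring
    _ ≤ y ^ q * A n (fun _ => 1) := by
        apply mul_le_mul_of_nonneg_right _ hA1.le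
        have h6 : (16 : ℝ) ≤ 16 ^ q := by
          calc (16 : ℝ) = 16 ^ (1 : ℝ) := (Real.rpow_one 16).symm
            _ ≤ 16 ^ q := Real.rpow_le_rpow_of_exponent_le (by norm_num) hq.le
        calc (eta n ^ 2 / 12288 / (16 * Real.pi) / (q - 1)) ^ q * 16
            ≤ (eta n ^ 2 / 12288 / (16 * Real.pi) / (q - 1)) ^ q * 16 ^ q :=
              mul_le_mul_of_nonneg_left h6 (Real.rpow_nonneg h5 q)
          _ = (eta n ^ 2 / 12288 / (16 * Real.pi) / (q - 1) * 16) ^ q :=
              (Real.mul_rpow h5 (by norm_num)).symm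
          _ ≤ y ^ q := by
              apply Real.rpow_le_rpow (by positivity) _ (by linarith)
              have h7 : eta n ^ 2 / 12288 / (16 * Real.pi) / (q - 1) * 16 =
                  eta n ^ 2 / 12288 / Real.pi / (q - 1) := by
                field_simp
              rw [h7]
              exact hy2
-- END l2

end Pool.Agent.Sph
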