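import Pool.Agent.Sph.Defs

/-! Separated sets on the sphere. Text, (P), (N). -/

set_option autoImplicit false

namespace Pool.Agent.Sph

open MeasureTheory ComplexConjugate

-- BEGIN p1
/-- (p1, size 2) PROOF. As `Besicovitch.card_le_of_separated`: the balls of radius `δ / 2` around the points are disjoint and lie in the ball of radius `r + δ / 2` around
`c`; Haar measure of balls (`Measure.addHaar_ball`). -/
theorem pack {F : Type*} [NormedAddCommGroup F] [NormedSpace ℝ F] [FiniteDimensional ℝ F]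
    (T : Finset F) (c : F) (r δ : ℝ) (hδ : 0 < δ) (hr : 0 ≤ r) (h1 : ∀ x ∈ T, ‖x - c‖ ≤ r)
    (h2 : ∀ x ∈ T, ∀ y ∈ T, x ≠ y → δ ≤ ‖x - y‖) :
    (T.card : ℝ) ≤ (1 + 2 * r / δ) ^ (Module.finrank ℝ F) := by
  borelize F
  let μ : Measure F := Measure.addHaar
  set ρ : ℝ := δ / 2 with hρ
  set R : ℝ := r + δ / 2 with hR
  have ρpos : 0 < ρ := by positivity
  have Rpos : 0 < R := by positivity
  set A := ⋃ x ∈ T, Metric.ball (x : F) ρ with hA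
  have D : Set.Pairwise (T : Set F) (Function.onFun Disjoint fun x => Metric.ball (x : F) ρ) := by
    rintro x hx y hy hxy
    apply Metric.ball_disjoint_ball
    rw [dist_eq_norm]
    have := h2 x hx y hy hxy
    linarith
  have A_subset : A ⊆ Metric.ball c R := by
    refine Set.iUnion₂_subset fun x hx => ?_
    apply Metric.ball_subset_ball'
    have := h1 x hx
    rw [dist_eq_norm]
    linarith
  have I : (T.card : ENNReal) * ENNReal.ofReal (ρ ^ Module.finrank ℝ F) * μ (Metric.ball 0 1) ≤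
      ENNReal.ofReal (R ^ Module.finrank ℝ F) * μ (Metric.ball 0 1) :=
    calc
      (T.card : ENNReal) * ENNReal.ofReal (ρ ^ Module.finrank ℝ F) * μ (Metric.ball 0 1) = μ A := by
        rw [hA, measure_biUnion_finset D fun c _ => measurableSet_ball]
        have J : ∀ x : F, μ (Metric.ball x ρ) =
            ENNReal.ofReal (ρ ^ Module.finrank ℝ F) * μ (Metric.ball 0 1) := fun x =>
          μ.addHaar_ball_of_pos x ρpos
        simp only [J, Finset.sum_const, nsmul_eq_mul, mul_assoc]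
      _ ≤ μ (Metric.ball c R) := measure_mono A_subset
      _ = ENNReal.ofReal (R ^ Module.finrank ℝ F) * μ (Metric.ball 0 1) :=
        μ.addHaar_ball_of_pos c Rpos
  have J : (T.card : ENNReal) * ENNReal.ofReal (ρ ^ Module.finrank ℝ F) ≤
      ENNReal.ofReal (R ^ Module.finrank ℝ F) :=
    (ENNReal.mul_le_mul_iff_left (Metric.measure_ball_pos _ _ zero_lt_one).ne'
      measure_ball_lt_top.ne).1 I
  have K : (T.card : ℝ) * ρ ^ Module.finrank ℝ F ≤ R ^ Module.finrank ℝ F := by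
    have hJ := J
    rw [← ENNReal.ofReal_natCast, ← ENNReal.ofReal_mul (Nat.cast_nonneg _)] at hJ
    exact (ENNReal.ofReal_le_ofReal_iff (by positivity)).1 hJ
  have hq : 1 + 2 * r / δ = R / ρ := by
    rw [hR, hρ]
    field_simp
    ring
  rw [hq, div_pow, le_div_iff₀ (by positivity)]
  exact K
-- END p1

variable {n : ℕ}

/-- the points of `T` are `s / m`-separated -/
def Sep (m : ℕ) (s : ℝ) (T : Finset (E n)) : Prop :=
  (∀ ζ ∈ T, ‖ζ‖ = 1) ∧ ∀ ζ ∈ T, ∀ ζ' ∈ T, ζ ≠ ζ' → s ≤ m * ‖1 - inner ℂ ζ' ζ‖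

-- BEGIN p2
private theorem p2_sq (ζ z : E n) (h1 : ‖ζ‖ = 1) :
    ‖ζ - z‖ ^ 2 = ‖z‖ ^ 2 - 1 + 2 * (1 - inner ℂ ζ z : ℂ).re := by
  rw [@norm_sub_sq ℂ, h1]
  simp only [Complex.sub_re, Complex.one_re]
  have : RCLike.re (inner ℂ ζ z) = (inner ℂ ζ z : ℂ).re := rfl
  rw [this]
  ring

private theorem p2_nz (m : ℕ) (hm : 1 ≤ m) (z : E n) (hz : ‖z‖ ≤ 1 + 1 / (2 * m)) :
    ‖z‖ ^ 2 - 1 ≤ 5 / 4 / m := by
  have hm' : (1 : ℝ) ≤ m := by exact_mod_cast hm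
  have hm0 : (0 : ℝ) < m := by linarith
  have h0 : 0 ≤ ‖z‖ := norm_nonneg z
  have h2 : ‖z‖ ^ 2 ≤ (1 + 1 / (2 * m)) ^ 2 := by
    apply pow_le_pow_left₀ h0 hz
  have h3 : ((1 : ℝ) + 1 / (2 * m)) ^ 2 = 1 + 1 / m + 1 / (4 * m ^ 2) := by
    field_simp
    ring
  have h4 : (1 : ℝ) / (4 * m ^ 2) ≤ 1 / (4 * m) := by
    apply one_div_le_one_div_of_le
    · positivity
    · nlinarith
  have h5 : (5 : ℝ) / 4 / m = 1 / m + 1 / (4 * m) := by
    field_simp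
    ring
  rw [h5]
  linarith

private theorem p2_dist (m : ℕ) (hm : 1 ≤ m) (ζ z : E n) (h1 : ‖ζ‖ = 1)
    (hz : ‖z‖ ≤ 1 + 1 / (2 * m)) (t : ℝ) (ht : 1 ≤ t) (h : m * ‖1 - inner ℂ ζ z‖ ≤ t) :
    ‖ζ - z‖ ≤ 2 * Real.sqrt (t / m) := by
  have hm' : (1 : ℝ) ≤ m := by exact_mod_cast hm
  have hm0 : (0 : ℝ) < m := by linarith
  have e1 := p2_sq ζ z h1
  have e2 := p2_nz m hm z hz
  have e3 : (1 - inner ℂ ζ z : ℂ).re ≤ ‖1 - inner ℂ ζ z‖ := Complex.re_le_norm _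
  have e4 : ‖1 - inner ℂ ζ z‖ ≤ t / m := by
    rw [le_div_iff₀ hm0]
    linarith
  have e5 : (5 : ℝ) / 4 / m ≤ 2 * (t / m) := by
    rw [← mul_div_assoc]
    apply div_le_div_of_nonneg_right _ hm0.le
    linarith
  have e6 : ‖ζ - z‖ ^ 2 ≤ 4 * (t / m) := by linarith
  have e7 : 2 * Real.sqrt (t / m) = Real.sqrt (4 * (t / m)) := by
    rw [Real.sqrt_mul (by norm_num), show (4 : ℝ) = 2 ^ 2 by norm_num,
      Real.sqrt_sq (by norm_num)]
  rw [e7]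
  exact Real.le_sqrt_of_sq_le e6

private theorem p2_nz2 (m : ℕ) (hm : 1 ≤ m) (ζ z : E n) (h1 : ‖ζ‖ = 1)
    (hz : ‖z‖ ≤ 1 + 1 / (2 * m)) (t : ℝ) (ht : 1 ≤ t) (h : m * ‖1 - inner ℂ ζ z‖ ≤ t) :
    |‖z‖ ^ 2 - 1| ≤ 2 * (t / m) := by
  have hm' : (1 : ℝ) ≤ m := by exact_mod_cast hm
  have hm0 : (0 : ℝ) < m := by linarith
  have e2 := p2_nz m hm z hz
  have e4 : ‖1 - inner ℂ ζ z‖ ≤ t / m := by
    rw [le_div_iff₀ hm0]
    linarith
  have e5 : (5 : ℝ) / 4 / m ≤ 2 * (t / m) := by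
    rw [← mul_div_assoc]
    apply div_le_div_of_nonneg_right _ hm0.le
    linarith
  have e6 : ‖(inner ℂ ζ z : ℂ)‖ ≤ ‖z‖ := by
    have := norm_inner_le_norm (𝕜 := ℂ) ζ z
    rwa [h1, one_mul] at this
  have e7 : 1 - ‖(inner ℂ ζ z : ℂ)‖ ≤ t / m := by
    have h8 : ‖(1 : ℂ)‖ - ‖(inner ℂ ζ z : ℂ)‖ ≤ ‖1 - inner ℂ ζ z‖ := norm_sub_norm_le _ _
    rw [norm_one] at h8
    linarith
  have h0 : 0 ≤ ‖z‖ := norm_nonneg z
  have ht0 : 0 ≤ t / m := by positivity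
  rw [abs_le]
  constructor
  · by_cases h9 : 1 ≤ ‖z‖
    · nlinarith
    · push Not at h9
      nlinarith
  · linarith

private theorem p2_inner (m : ℕ) (hm : 1 ≤ m) (e ζ z : E n) (h1 : ‖ζ‖ = 1) (h2 : ‖e‖ = 1)
    (hz : ‖z‖ ≤ 1 + 1 / (2 * m)) (t : ℝ) (ht : 1 ≤ t) (h : m * ‖1 - inner ℂ ζ z‖ ≤ t)
    (he : m * ‖1 - inner ℂ e z‖ ≤ t) :
    ‖(inner ℂ e (ζ - e) : ℂ)‖ ≤ 8 * (t / m) := by
  have hm' : (1 : ℝ) ≤ m := by exact_mod_cast hm
  have hm0 : (0 : ℝ) < m := by linarith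
  have ht0 : 0 ≤ t / m := by positivity
  have a1 := p2_dist m hm ζ z h1 hz t ht h
  have a2 := p2_dist m hm e z h2 hz t ht he
  have a3 := p2_nz2 m hm ζ z h1 hz t ht h
  have b1 : ‖1 - inner ℂ ζ z‖ ≤ t / m := by
    rw [le_div_iff₀ hm0]
    linarith
  have b2 : ‖1 - inner ℂ e z‖ ≤ t / m := by
    rw [le_div_iff₀ hm0]
    linarith
  have b3 : ‖(1 : ℂ) - inner ℂ z ζ‖ ≤ t / m := by
    have : (1 : ℂ) - inner ℂ z ζ = conj (1 - inner ℂ ζ z) := by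
      rw [map_sub, map_one, inner_conj_symm]
    rw [this, Complex.norm_conj]
    exact b1
  have c1 : (inner ℂ e (ζ - e) : ℂ) = -((1 - inner ℂ e z) - inner ℂ (e - z) (ζ - z) +
      (1 - inner ℂ z ζ) + (((‖z‖ ^ 2 - 1 : ℝ)) : ℂ)) := by
    have d1 : (inner ℂ z z : ℂ) = ((‖z‖ ^ 2 : ℝ) : ℂ) := by
      rw [inner_self_eq_norm_sq_to_K]
      norm_cast
    have d2 : (inner ℂ e e : ℂ) = 1 := by
      rw [inner_self_eq_norm_sq_to_K, h2]
      norm_num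
    rw [inner_sub_right, inner_sub_left, inner_sub_right, inner_sub_right, d1, d2]
    push_cast
    ring
  have c2 : ‖(inner ℂ (e - z) (ζ - z) : ℂ)‖ ≤ 4 * (t / m) := by
    calc ‖(inner ℂ (e - z) (ζ - z) : ℂ)‖ ≤ ‖e - z‖ * ‖ζ - z‖ := norm_inner_le_norm _ _
      _ ≤ (2 * Real.sqrt (t / m)) * (2 * Real.sqrt (t / m)) := by
          apply mul_le_mul a2 a1 (norm_nonneg _) (by positivity)
      _ = 4 * (Real.sqrt (t / m) * Real.sqrt (t / m)) := by ring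
      _ = 4 * (t / m) := by rw [Real.mul_self_sqrt ht0]
  rw [c1, norm_neg]
  have c3 : ‖(((‖z‖ ^ 2 - 1 : ℝ)) : ℂ)‖ ≤ 2 * (t / m) := by
    rw [Complex.norm_real, Real.norm_eq_abs]
    exact a3
  calc ‖(1 - inner ℂ e z) - inner ℂ (e - z) (ζ - z) + (1 - inner ℂ z ζ) +
        (((‖z‖ ^ 2 - 1 : ℝ)) : ℂ)‖
      ≤ ‖(1 - inner ℂ e z) - inner ℂ (e - z) (ζ - z) + (1 - inner ℂ z ζ)‖ +
        ‖(((‖z‖ ^ 2 - 1 : ℝ)) : ℂ)‖ := norm_add_le _ _
    _ ≤ (‖(1 - inner ℂ e z) - inner ℂ (e - z) (ζ - z)‖ + ‖(1 : ℂ) - inner ℂ z ζ‖) +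
        ‖(((‖z‖ ^ 2 - 1 : ℝ)) : ℂ)‖ := by gcongr; exact norm_add_le _ _
    _ ≤ ((‖1 - inner ℂ e z‖ + ‖(inner ℂ (e - z) (ζ - z) : ℂ)‖) + ‖(1 : ℂ) - inner ℂ z ζ‖) +
        ‖(((‖z‖ ^ 2 - 1 : ℝ)) : ℂ)‖ := by gcongr; exact norm_sub_le _ _
    _ ≤ 8 * (t / m) := by linarith

private theorem p2_sep (m : ℕ) (hm : 1 ≤ m) (s : ℝ) (hs : 0 < s) (e ζ ζ' z : E n)
    (h1' : ‖ζ'‖ = 1) (h2 : ‖e‖ = 1)
    (hz : ‖z‖ ≤ 1 + 1 / (2 * m)) (t : ℝ) (ht : 1 ≤ t)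
    (h' : m * ‖1 - inner ℂ ζ' z‖ ≤ t)
    (he : m * ‖1 - inner ℂ e z‖ ≤ t) (hsep : s ≤ m * ‖1 - inner ℂ ζ' ζ‖) :
    s / (8 * Real.sqrt t) ≤ max (Real.sqrt m * ‖ζ - ζ'‖) (m * ‖(inner ℂ e (ζ - ζ') : ℂ)‖) := by
  have hm' : (1 : ℝ) ≤ m := by exact_mod_cast hm
  have hm0 : (0 : ℝ) < m := by linarith
  have ht0 : 0 ≤ t / m := by positivity
  have a1 := p2_dist m hm ζ' z h1' hz t ht h'
  have a2 := p2_dist m hm e z h2 hz t ht he
  have a3 : ‖ζ' - e‖ ≤ 4 * Real.sqrt (t / m) := by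
    have : ζ' - e = (ζ' - z) - (e - z) := by abel
    rw [this]
    have := norm_sub_le (ζ' - z) (e - z)
    linarith
  have b1 : (1 : ℂ) - inner ℂ ζ' ζ = -(inner ℂ (ζ' - e) (ζ - ζ') + inner ℂ e (ζ - ζ')) := by
    have d2 : (inner ℂ ζ' ζ' : ℂ) = 1 := by
      rw [inner_self_eq_norm_sq_to_K, h1']
      norm_num
    rw [inner_sub_left, inner_sub_right, inner_sub_right, d2]
    ring
  have b2 : ‖(1 : ℂ) - inner ℂ ζ' ζ‖ ≤ 4 * Real.sqrt (t / m) * ‖ζ - ζ'‖ +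
      ‖(inner ℂ e (ζ - ζ') : ℂ)‖ := by
    rw [b1, norm_neg]
    calc ‖(inner ℂ (ζ' - e) (ζ - ζ') : ℂ) + inner ℂ e (ζ - ζ')‖
        ≤ ‖(inner ℂ (ζ' - e) (ζ - ζ') : ℂ)‖ + ‖(inner ℂ e (ζ - ζ') : ℂ)‖ := norm_add_le _ _
      _ ≤ ‖ζ' - e‖ * ‖ζ - ζ'‖ + ‖(inner ℂ e (ζ - ζ') : ℂ)‖ := by
          gcongr
          exact norm_inner_le_norm _ _
      _ ≤ _ := by gcongr
  have hst : 1 ≤ Real.sqrt t := by
    rw [show (1 : ℝ) = Real.sqrt 1 by rw [Real.sqrt_one]]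
    exact Real.sqrt_le_sqrt ht
  by_cases hc : s / 2 ≤ m * ‖(inner ℂ e (ζ - ζ') : ℂ)‖
  · refine le_trans ?_ (le_max_right _ _)
    refine le_trans ?_ hc
    apply div_le_div_of_nonneg_left hs.le (by norm_num)
    linarith
  · refine le_trans ?_ (le_max_left _ _)
    push Not at hc
    have c1 : s / 2 < m * (4 * Real.sqrt (t / m) * ‖ζ - ζ'‖) := by
      have := mul_le_mul_of_nonneg_left b2 hm0.le
      rw [mul_add] at this
      linarith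
    have c2 : (m : ℝ) * Real.sqrt (t / m) = Real.sqrt m * Real.sqrt t := by
      rw [Real.sqrt_div' t hm0.le]
      have : Real.sqrt m ≠ 0 := by positivity
      field_simp
      rw [Real.sq_sqrt hm0.le]
    have c3 : (m : ℝ) * (4 * Real.sqrt (t / m) * ‖ζ - ζ'‖) =
        4 * Real.sqrt t * (Real.sqrt m * ‖ζ - ζ'‖) := by
      calc (m : ℝ) * (4 * Real.sqrt (t / m) * ‖ζ - ζ'‖) =
          4 * (m * Real.sqrt (t / m)) * ‖ζ - ζ'‖ := by ring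
        _ = _ := by rw [c2]; ring
    rw [c3] at c1
    rw [div_le_iff₀ (by positivity)]
    linarith

/-- (p2, size 3) PROOF. Text (P), count: let `e` be one of the points. `‖ζ - z‖ ^ 2 = ‖z‖ ^ 2 - 1 + 2 * re (1 - ⟪ζ, z⟫) ≤ (2 * t + 5 / 4) / m ≤ 4 * t / m`, so
`‖ζ - e‖ ≤ 4 * √(t / m)`; `1 - ⟪e, ζ⟫ = (1 - ⟪e, z⟫) - ⟪e - z, ζ - z⟫ + (1 - ⟪z, ζ⟫) + (‖z‖ ^ 2 - 1)`, so `‖⟪e, ζ - e⟫‖ ≤ 8 * t / m`. For two of the points, `d = ζ - ζ'`:
`s / m ≤ ‖⟪ζ, d⟫‖ ≤ ‖d‖ * ‖ζ - e‖ + ‖⟪e, d⟫‖`. `pack` for the image of the points under the real linear map `ζ ↦ (√m • ζ, m * ⟪e, ζ⟫)` to `E n × ℂ` (dimension `2 * n + 2`,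
supremum norm), center the image of `e`, `r = 8 * t`, `δ = s / (8 * √t)`; `1 + 128 * t * √t / s ≤ 129 * t ^ 2 / s`. -/
theorem cnt (m : ℕ) (hm : 1 ≤ m) (s : ℝ) (hs : 0 < s) (hs1 : s ≤ 1) (T : Finset (E n))
    (hT : Sep m s T) (z : E n) (hz : ‖z‖ ≤ 1 + 1 / (2 * m)) (t : ℝ) (ht : 1 ≤ t) :
    ((T.filter fun ζ => m * ‖1 - inner ℂ ζ z‖ ≤ t).card : ℝ) ≤
      (129 * t ^ 2 / s) ^ (2 * n + 2) := by
  classical
  have hm' : (1 : ℝ) ≤ m := by exact_mod_cast hm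
  have hm0 : (0 : ℝ) < m := by linarith
  have hst : 1 ≤ Real.sqrt t := by
    rw [show (1 : ℝ) = Real.sqrt 1 by rw [Real.sqrt_one]]
    exact Real.sqrt_le_sqrt ht
  have hst2 : Real.sqrt t ≤ t := by
    have h1 : Real.sqrt t * Real.sqrt t = t := Real.mul_self_sqrt (by linarith)
    nlinarith
  set T1 := T.filter fun ζ => m * ‖1 - inner ℂ ζ z‖ ≤ t with hT1
  rcases T1.eq_empty_or_nonempty with h0 | ⟨e, he⟩
  · rw [h0]
    simp only [Finset.card_empty, Nat.cast_zero]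
    positivity
  have heT : e ∈ T ∧ m * ‖1 - inner ℂ e z‖ ≤ t := by
    rw [hT1, Finset.mem_filter] at he
    exact he
  let f : E n → E n × ℂ := fun ζ => (((Real.sqrt m : ℝ) : ℂ) • ζ, (m : ℂ) * inner ℂ e ζ)
  have hf : ∀ x y : E n, f x - f y = (((Real.sqrt m : ℝ) : ℂ) • (x - y),
      (m : ℂ) * inner ℂ e (x - y)) := by
    intro x y
    simp only [f, Prod.mk_sub_mk]
    rw [smul_sub, inner_sub_right, mul_sub]
  have hfn : ∀ x y : E n, ‖f x - f y‖ = max (Real.sqrt m * ‖x - y‖)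
      (m * ‖(inner ℂ e (x - y) : ℂ)‖) := by
    intro x y
    rw [hf, Prod.norm_def]
    simp only
    rw [norm_smul, norm_mul, Complex.norm_real, Complex.norm_natCast, Real.norm_eq_abs,
      abs_of_nonneg (Real.sqrt_nonneg _)]
  have hδ : 0 < s / (8 * Real.sqrt t) := by positivity
  have hmem : ∀ x ∈ T1, x ∈ T ∧ m * ‖1 - inner ℂ x z‖ ≤ t := by
    intro x hx
    rw [hT1, Finset.mem_filter] at hx
    exact hx
  have hsep : ∀ x ∈ T1, ∀ y ∈ T1, x ≠ y → s / (8 * Real.sqrt t) ≤ ‖f x - f y‖ := by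
    intro x hx y hy hxy
    rw [hfn]
    exact p2_sep m hm s hs e x y z (hT.1 y (hmem y hy).1)
      (hT.1 e heT.1) hz t ht (hmem y hy).2 heT.2 (hT.2 x (hmem x hx).1 y (hmem y hy).1 hxy)
  have hinj : Set.InjOn f T1 := by
    intro x hx y hy hxy
    by_contra hne
    have := hsep x hx y hy hne
    rw [hxy, sub_self, norm_zero] at this
    linarith
  have hcard : (T1.image f).card = T1.card := Finset.card_image_of_injOn hinj
  have key := pack (F := E n × ℂ) (T1.image f) (f e) (8 * t) (s / (8 * Real.sqrt t)) hδ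
    (by linarith) (by
      intro x hx
      rw [Finset.mem_image] at hx
      obtain ⟨ζ, hζ, rfl⟩ := hx
      rw [hfn]
      apply max_le
      · have a1 := p2_dist m hm ζ z (hT.1 ζ (hmem ζ hζ).1) hz t ht (hmem ζ hζ).2
        have a2 := p2_dist m hm e z (hT.1 e heT.1) hz t ht heT.2
        have a3 : ‖ζ - e‖ ≤ 4 * Real.sqrt (t / m) := by
          have : ζ - e = (ζ - z) - (e - z) := by abel
          rw [this]
          have := norm_sub_le (ζ - z) (e - z)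
          linarith
        calc Real.sqrt m * ‖ζ - e‖ ≤ Real.sqrt m * (4 * Real.sqrt (t / m)) := by gcongr
          _ = 4 * (Real.sqrt m * Real.sqrt (t / m)) := by ring
          _ = 4 * Real.sqrt t := by
              rw [← Real.sqrt_mul hm0.le, mul_div_cancel₀ _ hm0.ne']
          _ ≤ 8 * t := by linarith
      · have a1 := p2_inner m hm e ζ z (hT.1 ζ (hmem ζ hζ).1) (hT.1 e heT.1) hz t ht
          (hmem ζ hζ).2 heT.2
        calc (m : ℝ) * ‖(inner ℂ e (ζ - e) : ℂ)‖ ≤ m * (8 * (t / m)) := by gcongr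
          _ = 8 * t := by field_simp) (by
      intro x hx y hy hxy
      rw [Finset.mem_image] at hx hy
      obtain ⟨ζ, hζ, rfl⟩ := hx
      obtain ⟨ζ', hζ', rfl⟩ := hy
      apply hsep ζ hζ ζ' hζ'
      intro h
      exact hxy (by rw [h]))
  rw [hcard] at key
  have hfin : Module.finrank ℝ (E n × ℂ) = 2 * n + 2 := by
    rw [finrank_real_of_complex, Module.finrank_prod, finrank_euclideanSpace,
      Module.finrank_self, Fintype.card_fin]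
    ring
  rw [hfin] at key
  refine key.trans ?_
  apply pow_le_pow_left₀ (by positivity)
  have e1 : 2 * (8 * t) / (s / (8 * Real.sqrt t)) = 128 * t * Real.sqrt t / s := by
    field_simp
    ring
  rw [e1]
  have e2 : 1 ≤ t ^ 2 / s := by
    rw [one_le_div hs]
    nlinarith
  have e3 : 128 * t * Real.sqrt t / s ≤ 128 * t ^ 2 / s := by
    apply div_le_div_of_nonneg_right _ hs.le
    nlinarith
  have e4 : 129 * t ^ 2 / s = t ^ 2 / s + 128 * t ^ 2 / s := by ring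
  rw [e4]
  linarith
-- END p2

-- BEGIN p3
private theorem p3_two (N : ℕ) : ∑ k ∈ Finset.range (N + 1), (((k : ℝ) + 1) ^ 2)⁻¹ ≤ 2 - ((N : ℝ) + 1)⁻¹ := by
  induction N with
  | zero => norm_num
  | succ N ih =>
    rw [Finset.sum_range_succ]
    have h : (((N : ℝ) + 1 + 1) ^ 2)⁻¹ + ((N : ℝ) + 1 + 1)⁻¹ ≤ ((N : ℝ) + 1)⁻¹ := by
      have hN : (0 : ℝ) ≤ N := Nat.cast_nonneg N
      have e : (((N : ℝ) + 1 + 1) ^ 2)⁻¹ + ((N : ℝ) + 1 + 1)⁻¹ = ((N : ℝ) + 3) / ((N : ℝ) + 2) ^ 2 := by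
        have h2 : (N : ℝ) + 1 + 1 = N + 2 := by ring
        rw [h2]
        field_simp
        ring
      rw [e, inv_eq_one_div, div_le_div_iff₀ (by positivity) (by positivity)]
      nlinarith
    push_cast
    linarith

/-- (p3, size 2) PROOF. Group the points by `k = ⌊x⌋₊`, `x = m * ‖1 - ⟪ζ, z⟫‖`: by `cnt` (`t = k + 1`) at most `(129 * (k + 1) ^ 2 / s) ^ (2 * n + 2)` points, for each of them
`(1 + x) ^ (4 * n + 6) ≥ (k + 1) ^ (4 * n + 6)`; `∑ (k + 1) ^ (-2) ≤ 2`. -/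
theorem psum (m : ℕ) (hm : 1 ≤ m) (s : ℝ) (hs : 0 < s) (hs1 : s ≤ 1) (T : Finset (E n))
    (hT : Sep m s T) (z : E n) (hz : ‖z‖ ≤ 1 + 1 / (2 * m)) :
    ∑ ζ ∈ T, ((1 + m * ‖1 - inner ℂ ζ z‖) ^ (4 * n + 6))⁻¹ ≤ 2 * (129 / s) ^ (2 * n + 2) := by
  classical
  set x : E n → ℝ := fun ζ => m * ‖1 - inner ℂ ζ z‖ with hx
  have x0 : ∀ ζ, 0 ≤ x ζ := fun ζ => by simp only [hx]; positivity
  set N : ℕ := T.sup fun ζ => ⌊x ζ⌋₊ with hN
  have hmap : ∀ ζ ∈ T, ⌊x ζ⌋₊ ∈ Finset.range (N + 1) := fun ζ hζ =>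
    Finset.mem_range.2 (Nat.lt_succ_of_le (Finset.le_sup (f := fun ζ => ⌊x ζ⌋₊) hζ))
  have hfib := Finset.sum_fiberwise_of_maps_to hmap fun ζ => ((1 + x ζ) ^ (4 * n + 6))⁻¹
  have hblk : ∀ k ∈ Finset.range (N + 1),
      ∑ ζ ∈ T with ⌊x ζ⌋₊ = k, ((1 + x ζ) ^ (4 * n + 6))⁻¹ ≤
        (129 / s) ^ (2 * n + 2) * (((k : ℝ) + 1) ^ 2)⁻¹ := by
    intro k _
    have hk0 : (0 : ℝ) ≤ k := Nat.cast_nonneg k
    have hk1 : (0 : ℝ) < (k : ℝ) + 1 := by positivity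
    have hc := cnt m hm s hs hs1 T hT z hz ((k : ℝ) + 1) (by linarith)
    have hsub : (T.filter fun ζ => ⌊x ζ⌋₊ = k) ⊆ T.filter fun ζ => m * ‖1 - inner ℂ ζ z‖ ≤ (k : ℝ) + 1 := by
      intro ζ hζ
      rw [Finset.mem_filter] at hζ ⊢
      refine ⟨hζ.1, ?_⟩
      have h := Nat.lt_floor_add_one (x ζ)
      rw [hζ.2] at h
      exact h.le
    have hcard : (((T.filter fun ζ => ⌊x ζ⌋₊ = k).card : ℕ) : ℝ) ≤ (129 * ((k : ℝ) + 1) ^ 2 / s) ^ (2 * n + 2) :=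
      le_trans (by exact_mod_cast Finset.card_le_card hsub) hc
    have hterm : ∀ ζ ∈ T.filter (fun ζ => ⌊x ζ⌋₊ = k),
        ((1 + x ζ) ^ (4 * n + 6))⁻¹ ≤ (((k : ℝ) + 1) ^ (4 * n + 6))⁻¹ := by
      intro ζ hζ
      rw [Finset.mem_filter] at hζ
      have h := Nat.floor_le (x0 ζ)
      rw [hζ.2] at h
      have h' : (k : ℝ) + 1 ≤ 1 + x ζ := by linarith
      exact inv_anti₀ (by positivity) (pow_le_pow_left₀ hk1.le h' _)
    calc ∑ ζ ∈ T with ⌊x ζ⌋₊ = k, ((1 + x ζ) ^ (4 * n + 6))⁻¹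
        ≤ ∑ ζ ∈ T with ⌊x ζ⌋₊ = k, (((k : ℝ) + 1) ^ (4 * n + 6))⁻¹ := Finset.sum_le_sum hterm
      _ = (((T.filter fun ζ => ⌊x ζ⌋₊ = k).card : ℕ) : ℝ) * (((k : ℝ) + 1) ^ (4 * n + 6))⁻¹ := by
          rw [Finset.sum_const, nsmul_eq_mul]
      _ ≤ (129 * ((k : ℝ) + 1) ^ 2 / s) ^ (2 * n + 2) * (((k : ℝ) + 1) ^ (4 * n + 6))⁻¹ :=
          mul_le_mul_of_nonneg_right hcard (by positivity)
      _ = (129 / s) ^ (2 * n + 2) * (((k : ℝ) + 1) ^ 2)⁻¹ := by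
          have e1 : 129 * ((k : ℝ) + 1) ^ 2 / s = (129 / s) * ((k : ℝ) + 1) ^ 2 := by ring
          have e2 : ((k : ℝ) + 1) ^ (4 * n + 6) = (((k : ℝ) + 1) ^ 2) ^ (2 * n + 2) * ((k : ℝ) + 1) ^ 2 := by
            rw [← pow_mul, ← pow_add]
            congr 1
            ring
          rw [e1, mul_pow, e2, mul_inv, mul_assoc, ← mul_assoc ((((k : ℝ) + 1) ^ 2) ^ (2 * n + 2)),
            mul_inv_cancel₀ (by positivity), one_mul]
  have hP : (0 : ℝ) ≤ (129 / s) ^ (2 * n + 2) := by positivity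
  calc ∑ ζ ∈ T, ((1 + x ζ) ^ (4 * n + 6))⁻¹
      = ∑ k ∈ Finset.range (N + 1), ∑ ζ ∈ T with ⌊x ζ⌋₊ = k, ((1 + x ζ) ^ (4 * n + 6))⁻¹ := hfib.symm
    _ ≤ ∑ k ∈ Finset.range (N + 1), (129 / s) ^ (2 * n + 2) * (((k : ℝ) + 1) ^ 2)⁻¹ := Finset.sum_le_sum hblk
    _ = (129 / s) ^ (2 * n + 2) * ∑ k ∈ Finset.range (N + 1), (((k : ℝ) + 1) ^ 2)⁻¹ := by
        rw [Finset.mul_sum]
    _ ≤ (129 / s) ^ (2 * n + 2) * 2 := by
        refine mul_le_mul_of_nonneg_left (le_trans (p3_two N) ?_) hP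
        have : (0 : ℝ) < ((N : ℝ) + 1)⁻¹ := by positivity
        linarith
    _ = 2 * (129 / s) ^ (2 * n + 2) := mul_comm _ _
-- END p3

-- BEGIN p4
private theorem p4_dist (m : ℕ) (hm : 1 ≤ m) (s : ℝ) (T : Finset (E n)) (hT : Sep m s T) (x : E n)
    (hx : x ∈ T) (y : E n) (hy : y ∈ T) (h : x ≠ y) : s / m ≤ ‖x - y‖ := by
  have hm' : (0 : ℝ) < m := by exact_mod_cast hm
  have h1 := hT.2 x hx y hy h
  have hy1 := hT.1 y hy
  have e : (1 : ℂ) - inner ℂ y x = inner ℂ y (y - x) := by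
    rw [inner_sub_right, inner_self_eq_norm_sq_to_K, hy1]
    simp
  rw [div_le_iff₀ hm']
  calc s ≤ m * ‖1 - inner ℂ y x‖ := h1
    _ ≤ m * (‖y‖ * ‖y - x‖) := by
        rw [e]
        gcongr
        exact norm_inner_le_norm _ _
    _ = ‖x - y‖ * m := by
        rw [hy1, norm_sub_rev x y]; ring

private theorem p4_bd (m : ℕ) (hm : 1 ≤ m) (s : ℝ) (hs : 0 < s) :
    ∃ N : ℕ, ∀ T : Finset (E n), Sep m s T → T.card ≤ N := by
  have hm' : (0 : ℝ) < m := by exact_mod_cast hm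
  refine ⟨⌊(1 + 2 * 1 / (s / m)) ^ (Module.finrank ℝ (E n))⌋₊, fun T hT => ?_⟩
  apply Nat.le_floor
  apply pack T 0 1 (s / m) (by positivity) (by norm_num)
  · intro x hx
    rw [sub_zero, hT.1 x hx]
  · intro x hx y hy h
    exact p4_dist m hm s T hT x hx y hy h

/-- (p4, size 2) PROOF. The cardinalities of the `Sep` sets are bounded: `‖1 - ⟪ζ', ζ⟫‖ = ‖⟪ζ', ζ' - ζ⟫‖ ≤ ‖ζ - ζ'‖`, `pack` with `c = 0`, `r = 1`, `δ = s / m`. Take one of maximal cardinality;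
a point `z` of the sphere without `ζ` could be added (`‖1 - ⟪ζ, z⟫‖ = ‖1 - ⟪z, ζ⟫‖`; `z ∉ T` because `1 - ⟪z, z⟫ = 0`). -/
theorem net (m : ℕ) (hm : 1 ≤ m) (s : ℝ) (hs : 0 < s) :
    ∃ T : Finset (E n), Sep m s T ∧ ∀ z : E n, ‖z‖ = 1 → ∃ ζ ∈ T, m * ‖1 - inner ℂ ζ z‖ < s := by
  classical
  obtain ⟨N, hN⟩ := p4_bd (n := n) m hm s hs
  let P : ℕ → Prop := fun k => ∃ T : Finset (E n), Sep m s T ∧ T.card = k
  have h0 : P 0 := ⟨∅, ⟨by simp, by simp⟩, by simp⟩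
  obtain ⟨T, hT, hTc⟩ : P (Nat.findGreatest P N) := Nat.findGreatest_spec (Nat.zero_le N) h0
  refine ⟨T, hT, fun z hz => ?_⟩
  by_contra hcon
  push Not at hcon
  have hzT : z ∉ T := by
    intro hzT
    have h1 := hcon z hzT
    rw [inner_self_eq_norm_sq_to_K, hz] at h1
    simp at h1
    linarith
  have hsep : Sep m s (insert z T) := by
    constructor
    · intro x hx
      rcases Finset.mem_insert.1 hx with rfl | hx
      · exact hz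
      · exact hT.1 x hx
    · intro x hx y hy hxy
      rcases Finset.mem_insert.1 hx with hx1 | hx1
      · rcases Finset.mem_insert.1 hy with hy1 | hy1
        · exact absurd (hx1.trans hy1.symm) hxy
        · rw [hx1]; exact hcon y hy1
      · rcases Finset.mem_insert.1 hy with hy1 | hy1
        · rw [hy1]
          have e : ‖(1 : ℂ) - inner ℂ z x‖ = ‖(1 : ℂ) - inner ℂ x z‖ := by
            rw [← inner_conj_symm z x, ← Complex.norm_conj]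
            congr 1
            simp
          rw [e]
          exact hcon x hx1
        · exact hT.2 x hx1 y hy1 hxy
  have hc : (insert z T).card = T.card + 1 := Finset.card_insert_of_notMem hzT
  have h2 : P (T.card + 1) := ⟨insert z T, hsep, hc⟩
  have h3 : T.card + 1 ≤ N := hc ▸ hN _ hsep
  have h4 := Nat.le_findGreatest h3 h2
  omega
-- END p4

end Pool.Agent.Sph
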