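import Pool.Agent.Sph.Har
import Pool.Agent.Sph.Pck
import Pool.Agent.Sph.Ker
import Pool.Agent.Sph.Ent

/-! One step. Text, (S). -/

set_option autoImplicit false

namespace Pool.Agent.Sph

open MeasureTheory ComplexConjugate

variable {n : ℕ}

/-- the linear form `z ↦ ⟪ζ, z⟫` -/
noncomputable def lin (ζ : E n) : MvPolynomial (Fin n) ℂ :=
  ∑ i, MvPolynomial.C (conj (ζ i)) * MvPolynomial.X i

/-- the peak polynomial -/
noncomputable def kerP (m L : ℕ) (ζ : E n) : MvPolynomial (Fin n) ℂ :=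
  lin ζ * (MvPolynomial.C ((m : ℂ)⁻¹) * ∑ k ∈ Finset.range m, lin ζ ^ k) ^ L

/-- the correction term -/
noncomputable def cor (m L : ℕ) (c : E n → ℝ) (T : Finset (E n)) : MvPolynomial (Fin n) ℂ :=
  ∑ ζ ∈ T, MvPolynomial.C (c ζ : ℂ) * kerP m L ζ

-- BEGIN s1
/-- (s1, size 2) -/
theorem ev_add (p q : MvPolynomial (Fin n) ℂ) (z : E n) : ev (p + q) z = ev p z + ev q z := by
  simp [ev]

private theorem s1_lin (ζ z : E n) :
    MvPolynomial.eval (fun i => z i) (lin ζ) = inner ℂ ζ z := by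
  simp only [lin, map_sum, map_mul, MvPolynomial.eval_C, MvPolynomial.eval_X]
  rw [PiLp.inner_apply]
  refine Finset.sum_congr rfl fun i _ => ?_
  simp [RCLike.inner_apply, mul_comm]

private theorem s1_kerP (m L : ℕ) (ζ z : E n) :
    MvPolynomial.eval (fun i => z i) (kerP m L ζ) = ker m L (inner ℂ ζ z) := by
  simp only [kerP, ker, map_mul, map_pow, map_sum, MvPolynomial.eval_C, s1_lin]
  rw [div_eq_inv_mul]

theorem ev_cor (m L : ℕ) (c : E n → ℝ) (T : Finset (E n)) (z : E n) :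
    ev (cor m L c T) z = ∑ ζ ∈ T, (c ζ : ℂ) * ker m L (inner ℂ ζ z) := by
  simp only [ev, cor, map_sum, map_mul, MvPolynomial.eval_C, s1_kerP]

private theorem s1_deg_lin (ζ : E n) : (lin ζ).totalDegree ≤ 1 := by
  refine (MvPolynomial.totalDegree_finsetSum _ _).trans ?_
  refine Finset.sup_le fun i _ => ?_
  refine (MvPolynomial.totalDegree_mul _ _).trans ?_
  rw [MvPolynomial.totalDegree_C, zero_add]
  exact (MvPolynomial.totalDegree_X i).le

private theorem s1_deg_kerP (m L : ℕ) (ζ : E n) :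
    (kerP m L ζ).totalDegree ≤ 1 + L * (m - 1) := by
  refine (MvPolynomial.totalDegree_mul _ _).trans ?_
  refine Nat.add_le_add (s1_deg_lin ζ) ?_
  refine (MvPolynomial.totalDegree_pow _ _).trans ?_
  refine Nat.mul_le_mul_left L ?_
  refine (MvPolynomial.totalDegree_mul _ _).trans ?_
  rw [MvPolynomial.totalDegree_C, zero_add]
  refine (MvPolynomial.totalDegree_finsetSum _ _).trans ?_
  refine Finset.sup_le fun k hk => ?_
  refine (MvPolynomial.totalDegree_pow _ _).trans ?_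
  have h1 := s1_deg_lin ζ
  have h2 : k < m := Finset.mem_range.1 hk
  calc k * (lin ζ).totalDegree ≤ k * 1 := Nat.mul_le_mul_left k h1
    _ ≤ m - 1 := by omega

theorem deg_cor (m L : ℕ) (hm : 1 ≤ m) (c : E n → ℝ) (T : Finset (E n)) :
    (cor m L c T).totalDegree ≤ 1 + L * (m - 1) := by
  refine (MvPolynomial.totalDegree_finsetSum _ _).trans ?_
  refine Finset.sup_le fun ζ _ => ?_
  refine (MvPolynomial.totalDegree_mul _ _).trans ?_
  rw [MvPolynomial.totalDegree_C, zero_add]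
  exact s1_deg_kerP m L ζ
-- END s1

/-- the constant of the packing lemma for `s = 1 / (3 * (4 * n + 9))` -/
noncomputable def CP (n : ℕ) : ℝ := 2 * (129 * (3 * (4 * n + 9))) ^ (2 * n + 2)

/-- the small factor -/
noncomputable def eta (n : ℕ) : ℝ := 1 / (54 * 5 ^ (4 * n + 8) * CP n)

-- BEGIN s2
/-- (s2, size 2) PROOF. `L = 4 * n + 8`. For `x = m * ‖1 - ⟪ζ, z⟫‖`: `|c ζ| ≤ eta n * v ζ`, `v ζ ≤ 2 * v z * (3 + x) ^ 2 ≤ 18 * v z * (1 + x) ^ 2` (`harn_m`),
`‖ker‖ ≤ 3 / 2 * 5 ^ L / (1 + x) ^ L` (`ker_le`, `‖⟪ζ, z⟫‖ ≤ ‖z‖`), the sum over `T` of `(1 + x) ^ -(4 * n + 6)` is at most `CP n` (`psum` with `s = 1 / (3 * (4 * n + 9))`). -/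
theorem cor_le (p : MvPolynomial (Fin n) ℂ) (m : ℕ) (hm : 1 ≤ m)
    (h : ∀ z : E n, ‖z‖ ≤ 1 + 1 / m → 0 < (ev p z).re) (T : Finset (E n))
    (hT : Sep m (1 / (3 * (4 * n + 9))) T) (c : E n → ℝ)
    (hc : ∀ ζ ∈ T, |c ζ| ≤ eta n * (ev p ζ).re) (z : E n) (hz : ‖z‖ ≤ 1 + 1 / (2 * m)) :
    ‖ev (cor m (4 * n + 8) c T) z‖ ≤ (ev p z).re / 2 := by
  have hCP : 0 < CP n := by
    unfold CP
    positivity
  have heta : 0 ≤ eta n := by
    unfold eta
    positivity
  have hm0 : (0 : ℝ) < m := by exact_mod_cast hm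
  have hv : 0 ≤ (ev p z).re := by
    refine (h z (hz.trans ?_)).le
    have h1 : (1 : ℝ) / (2 * m) ≤ 1 / m := by
      apply one_div_le_one_div_of_le hm0
      linarith
    linarith
  have hterm : ∀ ζ ∈ T, ‖(c ζ : ℂ) * ker m (4 * n + 8) (inner ℂ ζ z)‖ ≤
      eta n * 27 * 5 ^ (4 * n + 8) * (ev p z).re * ((1 + m * ‖1 - inner ℂ ζ z‖) ^ (4 * n + 6))⁻¹ := by
    intro ζ hζ
    have hζ1 : ‖ζ‖ = 1 := hT.1 ζ hζ
    have h1 := harn_m p m hm h z ζ hz hζ1
    have hin : ‖(inner ℂ ζ z : ℂ)‖ ≤ 1 + 1 / (2 * m) := by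
      refine (norm_inner_le_norm ζ z).trans ?_
      rw [hζ1, one_mul]
      exact hz
    have h2 := ker_le m (4 * n + 8) hm (inner ℂ ζ z) hin
    have hx0 : 0 ≤ (m : ℝ) * ‖1 - inner ℂ ζ z‖ := by positivity
    generalize (m : ℝ) * ‖1 - inner ℂ ζ z‖ = x at h1 h2 hx0 ⊢
    have h3 : (3 + x) ^ 2 ≤ 9 * (1 + x) ^ 2 := by nlinarith
    have h4 : (ev p ζ).re ≤ 18 * (ev p z).re * (1 + x) ^ 2 := by
      have h5 := mul_le_mul_of_nonneg_left h3 hv
      linarith
    have h5 : |c ζ| ≤ eta n * (18 * (ev p z).re * (1 + x) ^ 2) :=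
      (hc ζ hζ).trans (mul_le_mul_of_nonneg_left h4 heta)
    rw [norm_mul, Complex.norm_real, Real.norm_eq_abs]
    have h6 : ‖ker m (4 * n + 8) (inner ℂ ζ z)‖ ≤ 3 / 2 * 5 ^ (4 * n + 8) / (1 + x) ^ (4 * n + 8) := by
      rw [le_div_iff₀ (by positivity)]
      exact h2
    refine (mul_le_mul h5 h6 (norm_nonneg _) (by positivity)).trans (le_of_eq ?_)
    have h7 : (1 + x) ^ (4 * n + 8) = (1 + x) ^ (4 * n + 6) * (1 + x) ^ 2 := by
      rw [← pow_add]
    have h8 : (1 + x) ^ 2 ≠ 0 := by positivity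
    have h9 : (1 + x) ^ (4 * n + 6) ≠ 0 := by positivity
    rw [h7]
    generalize (5 : ℝ) ^ (4 * n + 8) = q
    field_simp
    ring
  rw [ev_cor]
  refine (norm_sum_le _ _).trans ((Finset.sum_le_sum hterm).trans ?_)
  rw [← Finset.mul_sum]
  have hs : (0 : ℝ) < 1 / (3 * (4 * n + 9)) := by positivity
  have hs1 : (1 : ℝ) / (3 * (4 * n + 9)) ≤ 1 := by
    rw [div_le_one (by positivity)]
    have : (0 : ℝ) ≤ n := Nat.cast_nonneg n
    linarith
  have h1 := psum m hm _ hs hs1 T hT z hz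
  have h2 : (2 : ℝ) * (129 / (1 / (3 * (4 * n + 9)))) ^ (2 * n + 2) = CP n := by
    unfold CP
    rw [div_div_eq_mul_div, div_one]
  rw [h2] at h1
  refine (mul_le_mul_of_nonneg_left h1 (by positivity)).trans (le_of_eq ?_)
  have h3 : (5 : ℝ) ^ (4 * n + 8) ≠ 0 := by positivity
  unfold eta
  have h4 := hCP.ne'
  field_simp
  ring
-- END s2

-- BEGIN s3
private lemma s3_ker (m L : ℕ) : Continuous (ker m L) := by
  unfold ker
  fun_prop

private lemma s3_cont (p : MvPolynomial (Fin n) ℂ) : Continuous (fun z : E n => (ev p z).re) :=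
  Complex.continuous_re.comp (ev_diff p).continuous

/-- (s3, size 2) PROOF. On the sphere take `ζ ∈ T` with `x < s = 1 / (3 * (4 * n + 9))` (`hN`): `1 / 2 ≤ re ker` (`ker_re`, `L = 4 * n + 8`), `v z ≤ 2 * v ζ * (3 + x) ^ 2 ≤ 32 * v ζ` (`harn_m` with `z` and `ζ` exchanged), so the term of `ζ` is at least
`eta ^ 2 * v ζ ^ 2 / 4 / (3 * v z) ≥ eta ^ 2 / 12288 * v z`; the other terms are nonnegative. Then `A_mono`, `A_sum`, `A_mul`. -/
theorem gain (hn : 1 ≤ n) (p : MvPolynomial (Fin n) ℂ) (m : ℕ) (hm : 1 ≤ m)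
    (h : ∀ z : E n, ‖z‖ ≤ 1 + 1 / m → 0 < (ev p z).re) (T : Finset (E n))
    (hT : Sep m (1 / (3 * (4 * n + 9))) T)
    (hN : ∀ z : E n, ‖z‖ = 1 → ∃ ζ ∈ T, m * ‖1 - inner ℂ ζ z‖ < 1 / (3 * (4 * n + 9))) :
    eta n ^ 2 / 12288 * A n (fun z => (ev p z).re) ≤
      ∑ ζ ∈ T, A n (fun z => (eta n * (ev p ζ).re * (ker m (4 * n + 8) (inner ℂ ζ z)).re) ^ 2 *
        (1 / (3 * (ev p z).re))) := by
  have hm0 : (0 : ℝ) < m := by exact_mod_cast hm
  have hpos : ∀ z : E n, ‖z‖ = 1 → 0 < (ev p z).re := by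
    intro z hz
    apply h
    rw [hz]
    have : (0 : ℝ) < 1 / m := by positivity
    linarith
  have hcont : ∀ ζ ∈ T, ContinuousOn (fun z : E n =>
      (eta n * (ev p ζ).re * (ker m (4 * n + 8) (inner ℂ ζ z)).re) ^ 2 *
        (1 / (3 * (ev p z).re))) (Sp n) := by
    intro ζ _
    apply ContinuousOn.mul
    · apply Continuous.continuousOn
      have h1 : Continuous (fun z : E n => inner ℂ ζ z) := by fun_prop
      have h2 := Complex.continuous_re.comp ((s3_ker m (4 * n + 8)).comp h1)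
      exact (continuous_const.mul h2).pow 2
    · apply ContinuousOn.div continuousOn_const
      · exact (continuous_const.mul (s3_cont p)).continuousOn
      · intro z hz
        have := hpos z (by simpa using hz)
        positivity
  rw [← A_sum hn T _ hcont, ← A_mul]
  apply A_mono hn
  · exact (continuous_const.mul (s3_cont p)).continuousOn
  · exact continuousOn_finsetSum T hcont
  intro z hz
  obtain ⟨ζ, hζ, hx⟩ := hN z hz
  have hζ1 : ‖ζ‖ = 1 := hT.1 ζ hζ
  have hin : ‖(inner ℂ ζ z : ℂ)‖ ≤ 1 := by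
    calc ‖(inner ℂ ζ z : ℂ)‖ ≤ ‖ζ‖ * ‖z‖ := norm_inner_le_norm ζ z
      _ = 1 := by rw [hζ1, hz]; norm_num
  have hk : 1 / 2 ≤ (ker m (4 * n + 8) (inner ℂ ζ z)).re := by
    apply ker_re m (4 * n + 8) hm _ hin
    have e : (1 : ℝ) / (3 * (((4 * n + 8 : ℕ) : ℝ) + 1)) = 1 / (3 * (4 * n + 9)) := by
      push_cast
      ring_nf
    rw [e]
    exact hx.le
  have hh := harn_m p m hm h ζ z (by
    rw [hζ1]
    have : (0 : ℝ) < 1 / (2 * m) := by positivity
    linarith) hz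
  have hconj : ‖1 - (inner ℂ z ζ : ℂ)‖ = ‖1 - (inner ℂ ζ z : ℂ)‖ := by
    rw [← Complex.norm_conj, map_sub, map_one, inner_conj_symm]
  rw [hconj] at hh
  have hx1 : (m : ℝ) * ‖1 - (inner ℂ ζ z : ℂ)‖ ≤ 1 := by
    refine hx.le.trans ?_
    rw [div_le_one (by positivity)]
    have : (0 : ℝ) ≤ n := by positivity
    linarith
  have hx0 : (0 : ℝ) ≤ (m : ℝ) * ‖1 - (inner ℂ ζ z : ℂ)‖ := by positivity
  set x : ℝ := (m : ℝ) * ‖1 - (inner ℂ ζ z : ℂ)‖ with hxdef
  have hvz := hpos z hz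
  have hvζ := hpos ζ hζ1
  set a : ℝ := (ev p z).re with ha
  set b : ℝ := (ev p ζ).re with hb
  set κ : ℝ := (ker m (4 * n + 8) (inner ℂ ζ z)).re with hκ
  have h32 : a ≤ 32 * b := by
    have : (3 + x) ^ 2 ≤ 16 := by nlinarith
    nlinarith
  have hterm : eta n ^ 2 / 12288 * a ≤ (eta n * b * κ) ^ 2 * (1 / (3 * a)) := by
    have h3 : (a / 64) ^ 2 ≤ (b * κ) ^ 2 := by
      have : a / 64 ≤ b * κ := by nlinarith
      have h0 : 0 ≤ a / 64 := by positivity
      exact pow_le_pow_left₀ h0 this 2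
    have h4 : (eta n * b * κ) ^ 2 * (1 / (3 * a)) = eta n ^ 2 * ((b * κ) ^ 2 * (1 / (3 * a))) := by
      ring
    rw [h4]
    have h5 : eta n ^ 2 / 12288 * a = eta n ^ 2 * ((a / 64) ^ 2 * (1 / (3 * a))) := by
      field_simp
      ring
    rw [h5]
    apply mul_le_mul_of_nonneg_left _ (sq_nonneg _)
    apply mul_le_mul_of_nonneg_right h3
    positivity
  refine hterm.trans ?_
  have hsum := Finset.single_le_sum (f := fun ζ' : E n =>
      (eta n * (ev p ζ').re * (ker m (4 * n + 8) (inner ℂ ζ' z)).re) ^ 2 *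
        (1 / (3 * (ev p z).re))) (fun ζ' _ => by
          have := hpos z hz
          positivity) hζ
  exact hsum
-- END s3

-- BEGIN s4
/-- (s4, size 2) Choice of the signs. PROOF. Induction on `T`: for `w = ∑ ε ζ * a ζ` and a new `a`, `Q w = A (b * w + w ^ 2 * c)`: `Q (w + a) + Q (w - a) = 2 * Q w + 2 * A (a ^ 2 * c)`. -/
theorem signs (hn : 1 ≤ n) (b c : E n → ℝ) (hb : ContinuousOn b (Sp n)) (hc : ContinuousOn c (Sp n))
    (a : E n → E n → ℝ) (T : Finset (E n)) (ha : ∀ ζ ∈ T, ContinuousOn (a ζ) (Sp n)) :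
    ∃ ε : E n → ℝ, (∀ ζ, ε ζ = 1 ∨ ε ζ = -1) ∧
      ∑ ζ ∈ T, A n (fun z => a ζ z ^ 2 * c z) ≤
        A n (fun z => b z * (∑ ζ ∈ T, ε ζ * a ζ z) + (∑ ζ ∈ T, ε ζ * a ζ z) ^ 2 * c z) := by
  classical
  induction T using Finset.induction_on with
  | empty =>
    refine ⟨fun _ => 1, fun _ => Or.inl rfl, ?_⟩
    simp [A]
  | insert ζ0 T h0 ih =>
    obtain ⟨ε, h1, h2⟩ := ih (fun ζ hζ => ha ζ (Finset.mem_insert_of_mem hζ))
    have ha0 := ha ζ0 (Finset.mem_insert_self _ _)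
    have hwc : ContinuousOn (fun z => ∑ ζ ∈ T, ε ζ * a ζ z) (Sp n) :=
      continuousOn_finsetSum T (fun ζ hζ => continuousOn_const.mul (ha ζ (Finset.mem_insert_of_mem hζ)))
    have hQc : ∀ g : E n → ℝ, ContinuousOn g (Sp n) →
        ContinuousOn (fun z => b z * g z + g z ^ 2 * c z) (Sp n) :=
      fun g hg => (hb.mul hg).add ((hg.pow 2).mul hc)
    have hsum : ∀ (e : ℝ) (z : E n), ∑ ζ ∈ insert ζ0 T, Function.update ε ζ0 e ζ * a ζ z =
        (∑ ζ ∈ T, ε ζ * a ζ z) + e * a ζ0 z := by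
      intro e z
      rw [Finset.sum_insert h0, Function.update_self, add_comm]
      congr 1
      refine Finset.sum_congr rfl fun ζ hζ => ?_
      rw [Function.update_of_ne (fun h : ζ = ζ0 => h0 (by rw [← h]; exact hζ))]
    have hmem : ∀ e : ℝ, (e = 1 ∨ e = -1) → ∀ ζ, Function.update ε ζ0 e ζ = 1 ∨
        Function.update ε ζ0 e ζ = -1 := by
      intro e he ζ
      by_cases hζ : ζ = ζ0
      · subst hζ
        rw [Function.update_self]
        exact he
      · rw [Function.update_of_ne hζ]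
        exact h1 ζ
    generalize hw : (fun z => ∑ ζ ∈ T, ε ζ * a ζ z) = w at hwc
    have hw' : ∀ z, ∑ ζ ∈ T, ε ζ * a ζ z = w z := fun z => congrFun hw z
    simp only [hw'] at h2 hsum
    have key : A n (fun z => b z * (w z + a ζ0 z) + (w z + a ζ0 z) ^ 2 * c z) +
        A n (fun z => b z * (w z - a ζ0 z) + (w z - a ζ0 z) ^ 2 * c z) =
        2 * (A n (fun z => b z * w z + w z ^ 2 * c z) + A n (fun z => a ζ0 z ^ 2 * c z)) := by
      rw [← A_add hn _ _ (hQc (fun z => w z + a ζ0 z) (hwc.add ha0)) (hQc (fun z => w z - a ζ0 z) (hwc.sub ha0)),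
        ← A_add hn (fun z => b z * w z + w z ^ 2 * c z) (fun z => a ζ0 z ^ 2 * c z) (hQc w hwc)
          ((ha0.pow 2).mul hc), ← A_mul]
      congr 1
      funext z
      ring
    rcases le_total (A n (fun z => b z * (w z - a ζ0 z) + (w z - a ζ0 z) ^ 2 * c z))
      (A n (fun z => b z * (w z + a ζ0 z) + (w z + a ζ0 z) ^ 2 * c z)) with hle | hle
    · refine ⟨Function.update ε ζ0 1, hmem 1 (Or.inl rfl), ?_⟩
      simp only [hsum, one_mul]
      rw [Finset.sum_insert h0]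
      linarith
    · refine ⟨Function.update ε ζ0 (-1), hmem (-1) (Or.inr rfl), ?_⟩
      simp only [hsum, neg_one_mul, ← sub_eq_add_neg]
      rw [Finset.sum_insert h0]
      linarith
-- END s4

-- BEGIN s5
private theorem s5_ker (m L : ℕ) : Continuous (ker m L) := by
  unfold ker
  fun_prop

private theorem s5_ev (p : MvPolynomial (Fin n) ℂ) : Continuous (fun z : E n => (ev p z).re) :=
  Complex.continuous_re.comp (ev_diff p).continuous

/-- (s5, size 3) One step. PROOF. `T` from `net` with `s = 1 / (3 * (4 * n + 9))`, `a ζ z = eta n * (ev p ζ).re * (ker m L ⟪ζ, z⟫).re`, `b = 1 + log v`, `c = 1 / (3 * v)`; `ε` from `signs`;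
`q = p + cor m L (fun ζ => ε ζ * (eta n * (ev p ζ).re)) T`. `cor_le` gives the positivity and `|w| ≤ v / 2` on the sphere; `phi_ineq`, `A_mono`, `A_add`, `gain`. `ev (cor ..) 0 = 0` because `ker m L 0 = 0`. -/
theorem step (hn : 1 ≤ n) (p : MvPolynomial (Fin n) ℂ) (m : ℕ) (hm : 1 ≤ m)
    (h : ∀ z : E n, ‖z‖ ≤ 1 + 1 / m → 0 < (ev p z).re) :
    ∃ q : MvPolynomial (Fin n) ℂ, ev q 0 = ev p 0 ∧
      q.totalDegree ≤ max p.totalDegree (1 + (4 * n + 8) * (m - 1)) ∧
      (∀ z : E n, ‖z‖ ≤ 1 + 1 / (2 * m) → 0 < (ev q z).re) ∧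
      A n (fun z => phi (ev p z).re) + eta n ^ 2 / 12288 * A n (fun z => (ev p z).re) ≤
        A n (fun z => phi (ev q z).re) := by
  have hm0 : (0 : ℝ) < m := by exact_mod_cast hm
  have hn0 : (0 : ℝ) ≤ n := Nat.cast_nonneg n
  have hball : ∀ z : E n, ‖z‖ ≤ 1 + 1 / (2 * m) → ‖z‖ ≤ 1 + 1 / m := by
    intro z hz
    refine hz.trans ?_
    have : (1 : ℝ) / (2 * m) ≤ 1 / m := one_div_le_one_div_of_le hm0 (by linarith)
    linarith
  have hsph : ∀ z : E n, ‖z‖ = 1 → ‖z‖ ≤ 1 + 1 / (2 * m) := by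
    intro z hz
    have : (0 : ℝ) ≤ 1 / (2 * m) := by positivity
    linarith
  have hv : ∀ z : E n, ‖z‖ = 1 → 0 < (ev p z).re := fun z hz => h z (hball z (hsph z hz))
  have hs : (0 : ℝ) < 1 / (3 * (4 * n + 9)) := by positivity
  obtain ⟨T, hT, hN⟩ := net (n := n) m hm (1 / (3 * (4 * n + 9))) hs
  have heta : 0 < eta n := by
    unfold eta CP
    positivity
  have hpc := s5_ev p
  have hac : ∀ ζ : E n, Continuous (fun z : E n => eta n * (ev p ζ).re *
      (ker m (4 * n + 8) (inner ℂ ζ z)).re) := by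
    intro ζ
    have h1 : Continuous (fun z : E n => ker m (4 * n + 8) (inner ℂ ζ z)) :=
      (s5_ker m (4 * n + 8)).comp (by fun_prop)
    exact continuous_const.mul (Complex.continuous_re.comp h1)
  have hbc : ContinuousOn (fun z : E n => 1 + Real.log (ev p z).re) (Sp n) := by
    refine continuousOn_const.add (hpc.continuousOn.log fun z hz => ?_)
    exact (hv z (by simpa using hz)).ne'
  have hcc : ContinuousOn (fun z : E n => 1 / (3 * (ev p z).re)) (Sp n) := by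
    refine continuousOn_const.div (continuousOn_const.mul hpc.continuousOn) fun z hz => ?_
    have := hv z (by simpa using hz)
    positivity
  obtain ⟨ε, hε, hsgn⟩ := signs hn (fun z => 1 + Real.log (ev p z).re)
    (fun z => 1 / (3 * (ev p z).re)) hbc hcc
    (fun ζ z => eta n * (ev p ζ).re * (ker m (4 * n + 8) (inner ℂ ζ z)).re) T
    (fun ζ _ => (hac ζ).continuousOn)
  set w : E n → ℝ := fun z => ∑ ζ ∈ T, ε ζ * (eta n * (ev p ζ).re *
    (ker m (4 * n + 8) (inner ℂ ζ z)).re) with hw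
  set g : MvPolynomial (Fin n) ℂ :=
    cor m (4 * n + 8) (fun ζ => ε ζ * (eta n * (ev p ζ).re)) T with hg
  have hgw : ∀ z, (ev g z).re = w z := by
    intro z
    rw [hg, ev_cor, Complex.re_sum, hw]
    refine Finset.sum_congr rfl fun ζ _ => ?_
    rw [Complex.re_ofReal_mul]
    ring
  have hc' : ∀ ζ ∈ T, |ε ζ * (eta n * (ev p ζ).re)| ≤ eta n * (ev p ζ).re := by
    intro ζ hζ
    have h1 := hv ζ (hT.1 ζ hζ)
    have h2 : |ε ζ| = 1 := by
      rcases hε ζ with h3 | h3 <;> rw [h3] <;> norm_num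
    rw [abs_mul, h2, one_mul, abs_of_pos (mul_pos heta h1)]
  have hcor : ∀ z : E n, ‖z‖ ≤ 1 + 1 / (2 * m) → ‖ev g z‖ ≤ (ev p z).re / 2 :=
    fun z hz => cor_le p m hm h T hT _ hc' z hz
  have hre : ∀ z, (ev (p + g) z).re = (ev p z).re + w z := by
    intro z
    rw [ev_add, Complex.add_re, hgw]
  have hwle : ∀ z : E n, ‖z‖ ≤ 1 + 1 / (2 * m) → |w z| ≤ (ev p z).re / 2 := by
    intro z hz
    rw [← hgw]
    exact (Complex.abs_re_le_norm _).trans (hcor z hz)
  refine ⟨p + g, ?_, ?_, ?_, ?_⟩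
  · rw [ev_add, hg, ev_cor]
    have h1 : ∀ ζ ∈ T, ((ε ζ * (eta n * (ev p ζ).re) : ℝ) : ℂ) *
        ker m (4 * n + 8) (inner ℂ ζ (0 : E n)) = 0 := by
      intro ζ _
      rw [inner_zero_right, ker, zero_mul, mul_zero]
    rw [Finset.sum_eq_zero h1, add_zero]
  · exact (MvPolynomial.totalDegree_add _ _).trans
      (max_le_max le_rfl (deg_cor m (4 * n + 8) hm _ T))
  · intro z hz
    rw [hre]
    have h1 := h z (hball z hz)
    have h2 := (abs_le.1 (hwle z hz)).1
    linarith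
  · have hwc : Continuous w := continuous_finsetSum T fun ζ _ => continuous_const.mul (hac ζ)
    have hpp : Continuous (fun z : E n => phi (ev p z).re) :=
      Real.continuous_mul_log.comp hpc
    have hpq : Continuous (fun z : E n => phi (ev (p + g) z).re) :=
      Real.continuous_mul_log.comp (s5_ev (p + g))
    have hrest : ContinuousOn (fun z : E n => (1 + Real.log (ev p z).re) * w z +
        w z ^ 2 * (1 / (3 * (ev p z).re))) (Sp n) :=
      (hbc.mul hwc.continuousOn).add ((hwc.pow 2).continuousOn.mul hcc)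
    have h1 := A_mono hn (fun z => phi (ev p z).re + ((1 + Real.log (ev p z).re) * w z +
      w z ^ 2 * (1 / (3 * (ev p z).re)))) (fun z => phi (ev (p + g) z).re)
      (hpp.continuousOn.add hrest) hpq.continuousOn (by
        intro z hz
        rw [hre]
        have h2 := phi_ineq (ev p z).re (w z) (hv z hz) (hwle z (hsph z hz))
        have h3 : w z ^ 2 * (1 / (3 * (ev p z).re)) = w z ^ 2 / (3 * (ev p z).re) := by
          rw [mul_one_div]
        linarith)
    have h2 := A_add hn (fun z => phi (ev p z).re) (fun z => (1 + Real.log (ev p z).re) * w z +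
      w z ^ 2 * (1 / (3 * (ev p z).re))) hpp.continuousOn hrest
    have h3 := gain hn p m hm h T hT hN
    have h4 := h3.trans hsgn
    linarith
-- END s5

-- BEGIN s6
/-- (s6, size 2) The iteration. PROOF. Induction on `K`, `m = 2 ^ K`, `p = 1` for `K = 0`; `A_re`. -/
theorem iter (hn : 1 ≤ n) (K : ℕ) :
    ∃ p : MvPolynomial (Fin n) ℂ, ev p 0 = 1 ∧ p.totalDegree ≤ (4 * n + 8) * 2 ^ K ∧
      (∀ z : E n, ‖z‖ ≤ 1 + 1 / (2 ^ K : ℕ) → 0 < (ev p z).re) ∧
      K * (eta n ^ 2 / 12288) * A n (fun _ => 1) ≤ A n (fun z => phi (ev p z).re) := by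
  induction K with
  | zero =>
    have e1 : ∀ z : E n, ev (1 : MvPolynomial (Fin n) ℂ) z = 1 := by
      intro z
      unfold ev
      exact map_one _
    refine ⟨1, e1 0, ?_, ?_, ?_⟩
    · rw [MvPolynomial.totalDegree_one]
      exact Nat.zero_le _
    · intro z _
      rw [e1, Complex.one_re]
      exact one_pos
    · have e2 : (fun z : E n => phi (ev (1 : MvPolynomial (Fin n) ℂ) z).re) = fun _ => 0 := by
        funext z
        rw [e1, Complex.one_re]
        unfold phi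
        rw [Real.log_one, mul_zero]
      rw [e2]
      have e3 : A n (fun _ : E n => (0 : ℝ)) = 0 := by
        unfold A
        exact MeasureTheory.integral_zero _ _
      rw [e3, Nat.cast_zero, zero_mul, zero_mul]
  | succ K ih =>
    obtain ⟨p, h0, hd, hp, hA⟩ := ih
    obtain ⟨q, q0, qd, qp, qA⟩ := step hn p (2 ^ K) Nat.one_le_two_pow hp
    refine ⟨q, by rw [q0, h0], ?_, ?_, ?_⟩
    · refine qd.trans (max_le ?_ ?_)
      · refine hd.trans ?_
        apply Nat.mul_le_mul_left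
        exact Nat.pow_le_pow_right (by norm_num) (Nat.le_succ K)
      · have h1 : 1 ≤ 2 ^ K := Nat.one_le_two_pow
        have h2 : 2 ^ (K + 1) = 2 ^ K + 2 ^ K := by ring
        have h3 : (4 * n + 8) * (2 ^ K - 1) ≤ (4 * n + 8) * 2 ^ K :=
          Nat.mul_le_mul_left _ (Nat.sub_le _ _)
        have h4 : 1 ≤ (4 * n + 8) * 2 ^ K := Nat.mul_pos (by omega) h1
        rw [h2, mul_add]
        omega
    · intro z hz
      apply qp
      refine hz.trans (le_of_eq ?_)
      rw [pow_succ]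
      push_cast
      ring
    · have h1 := A_re hn p
      rw [h0, Complex.one_re, one_mul] at h1
      rw [h1] at qA
      refine le_trans ?_ qA
      push_cast
      have h2 : ((K : ℝ) + 1) * (eta n ^ 2 / 12288) * A n (fun _ => 1) =
          K * (eta n ^ 2 / 12288) * A n (fun _ => 1) +
            eta n ^ 2 / 12288 * A n (fun _ => 1) := by ring
      rw [h2]
      linarith
-- END s6

end Pool.Agent.Sph
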